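import Mathlib

set_option autoImplicit false
set_option linter.unusedSectionVars false
set_option linter.unusedVariables false
set_option linter.deprecated false

open MeasureTheory MeasureTheory.Measure Set
open scoped ENNReal NNReal

namespace Pool.Agent.H25.GM

variable {ι : Type} [Fintype ι] [DecidableEq ι]

/-- The unit cube. -/
def Q (ι : Type) : Set (ι → ℝ) := Icc 0 1

/-- Lipschitz in both directions. -/
def BiLip (γ : (ι → ℝ) ≃ (ι → ℝ)) : Prop :=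
  (∃ K : ℝ≥0, LipschitzWith K γ) ∧ ∃ K : ℝ≥0, LipschitzWith K γ.symm

/-- The part of the graph over the cube off the diagonal. -/
def off (γ : (ι → ℝ) → (ι → ℝ)) : Set ((ι → ℝ) × (ι → ℝ)) :=
  {p | p.1 ∈ Q ι ∧ p.2 = γ p.1 ∧ p.2 ≠ p.1}

/-- Its Hausdorff measure. -/
noncomputable def cost (γ : (ι → ℝ) → (ι → ℝ)) : ℝ≥0∞ := μH[(Fintype.card ι : ℝ)] (off γ)

lemma BiLip.refl : BiLip (Equiv.refl (ι → ℝ)) :=
  ⟨⟨1, LipschitzWith.id⟩, ⟨1, LipschitzWith.id⟩⟩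

lemma BiLip.symm {γ : (ι → ℝ) ≃ (ι → ℝ)} (h : BiLip γ) : BiLip γ.symm := ⟨h.2, by simpa using h.1⟩

lemma BiLip.trans {γ δ : (ι → ℝ) ≃ (ι → ℝ)} (h : BiLip γ) (h' : BiLip δ) : BiLip (γ.trans δ) := by
  obtain ⟨⟨K, hK⟩, ⟨K', hK'⟩⟩ := h
  obtain ⟨⟨L, hL⟩, ⟨L', hL'⟩⟩ := h'
  refine ⟨⟨L * K, ?_⟩, ⟨K' * L', ?_⟩⟩
  · exact hL.comp hK
  · exact hK'.comp hL'

lemma BiLip.continuous {γ : (ι → ℝ) ≃ (ι → ℝ)} (h : BiLip γ) : Continuous γ := by
  obtain ⟨⟨K, hK⟩, -⟩ := h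
  exact hK.continuous

/-- `γ` preserves the cube. -/
def PresQ (γ : (ι → ℝ) ≃ (ι → ℝ)) : Prop := ∀ x, γ x ∈ Q ι ↔ x ∈ Q ι

lemma PresQ.refl : PresQ (Equiv.refl (ι → ℝ)) := fun x => Iff.rfl

lemma PresQ.symm {γ : (ι → ℝ) ≃ (ι → ℝ)} (h : PresQ γ) : PresQ γ.symm := fun x => by
  rw [← h (γ.symm x)]; simp

lemma PresQ.trans {γ δ : (ι → ℝ) ≃ (ι → ℝ)} (h : PresQ γ) (h' : PresQ δ) :
    PresQ (γ.trans δ) := fun x => by
  simp only [Equiv.trans_apply]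
  rw [h', h]

lemma cost_refl : cost (Equiv.refl (ι → ℝ)) = 0 := by
  have : off (Equiv.refl (ι → ℝ)) = ∅ := by
    ext p; simp only [off, mem_setOf_eq, Equiv.refl_apply, mem_empty_iff_false, iff_false]
    rintro ⟨-, h, h'⟩; exact h' h
  rw [cost, this, measure_empty]

lemma cost_symm {γ : (ι → ℝ) ≃ (ι → ℝ)} (hγ : PresQ γ) : cost γ.symm = cost γ := by
  have key : ∀ δ : (ι → ℝ) ≃ (ι → ℝ), PresQ δ → cost δ.symm ≤ cost δ := by
    intro δ hδ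
    have hsub : off δ.symm ⊆ Prod.swap '' off δ := by
      rintro ⟨x, y⟩ ⟨h1, h2, h3⟩
      simp only at h1 h2 h3
      refine ⟨(y, x), ⟨?_, ?_, ?_⟩, rfl⟩
      · show y ∈ Q ι
        rw [h2, hδ.symm]; exact h1
      · show x = δ y
        rw [h2]; simp
      · exact fun h => h3 h.symm
    have hL : LipschitzWith 1 (Prod.swap : (ι → ℝ) × (ι → ℝ) → (ι → ℝ) × (ι → ℝ)) := by
      refine LipschitzWith.of_dist_le_mul fun p q => ?_
      simp only [Prod.dist_eq, Prod.fst_swap, Prod.snd_swap, NNReal.coe_one, one_mul]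
      rw [max_comm]
    calc cost δ.symm ≤ μH[(Fintype.card ι : ℝ)] (Prod.swap '' off δ) := measure_mono hsub
      _ ≤ ((1 : ℝ≥0) : ℝ≥0∞) ^ (Fintype.card ι : ℝ) * μH[(Fintype.card ι : ℝ)] (off δ) :=
          hL.hausdorffMeasure_image_le (by positivity) _
      _ = cost δ := by simp [cost]
  refine le_antisymm (key γ hγ) ?_
  have := key γ.symm hγ.symm
  simpa using this

/-- Post-composition. -/
lemma cost_trans_le {γ δ : (ι → ℝ) ≃ (ι → ℝ)} {K : ℝ≥0} (hK : 1 ≤ K)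
    (hδ : LipschitzWith K δ) :
    cost (γ.trans δ) ≤ cost δ + (K : ℝ≥0∞) ^ (Fintype.card ι : ℝ) * cost γ := by
  have hsub : off (γ.trans δ) ⊆ off δ ∪ (fun p : (ι → ℝ) × (ι → ℝ) => (p.1, δ p.2)) '' off γ := by
    rintro ⟨x, y⟩ ⟨h1, h2, h3⟩
    simp only [Equiv.trans_apply] at h1 h2 h3
    by_cases hx : γ x = x
    · left
      refine ⟨h1, ?_, h3⟩
      show y = δ x
      rw [h2, hx]
    · right
      refine ⟨(x, γ x), ⟨h1, rfl, hx⟩, ?_⟩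
      simp [h2]
  have hL : LipschitzWith K (fun p : (ι → ℝ) × (ι → ℝ) => (p.1, δ p.2)) := by
    refine LipschitzWith.of_dist_le_mul fun p q => ?_
    rw [Prod.dist_eq, Prod.dist_eq]
    have h1 : dist p.1 q.1 ≤ K * max (dist p.1 q.1) (dist p.2 q.2) := by
      calc dist p.1 q.1 ≤ max (dist p.1 q.1) (dist p.2 q.2) := le_max_left _ _
        _ = 1 * max (dist p.1 q.1) (dist p.2 q.2) := (one_mul _).symm
        _ ≤ _ := mul_le_mul_of_nonneg_right (by exact_mod_cast hK) (by positivity)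
    have h2 : dist (δ p.2) (δ q.2) ≤ K * max (dist p.1 q.1) (dist p.2 q.2) := by
      calc dist (δ p.2) (δ q.2) ≤ K * dist p.2 q.2 := hδ.dist_le_mul _ _
        _ ≤ _ := mul_le_mul_of_nonneg_left (le_max_right _ _) (by positivity)
    exact max_le h1 h2
  calc cost (γ.trans δ) ≤ μH[(Fintype.card ι : ℝ)] (off δ ∪ _) := measure_mono hsub
    _ ≤ μH[(Fintype.card ι : ℝ)] (off δ) + μH[(Fintype.card ι : ℝ)] _ := measure_union_le _ _
    _ ≤ _ := by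
      gcongr
      · exact le_rfl
      · exact hL.hausdorffMeasure_image_le (by positivity) _

/-- Pre-composition. -/
lemma cost_trans_le' {γ δ : (ι → ℝ) ≃ (ι → ℝ)} {K : ℝ≥0} (hK : 1 ≤ K)
    (hγ : LipschitzWith K γ.symm) (hpres : PresQ γ) :
    cost (γ.trans δ) ≤ cost γ + (K : ℝ≥0∞) ^ (Fintype.card ι : ℝ) * cost δ := by
  have hsub : off (γ.trans δ) ⊆ off γ ∪
      (fun p : (ι → ℝ) × (ι → ℝ) => (γ.symm p.1, p.2)) '' off δ := by
    rintro ⟨x, y⟩ ⟨h1, h2, h3⟩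
    simp only [Equiv.trans_apply] at h1 h2 h3
    by_cases hx : δ (γ x) = γ x
    · left
      refine ⟨h1, ?_, h3⟩
      show y = γ x
      rw [h2, hx]
    · right
      refine ⟨(γ x, δ (γ x)), ⟨(hpres x).2 h1, rfl, hx⟩, ?_⟩
      simp [h2]
  have hL : LipschitzWith K (fun p : (ι → ℝ) × (ι → ℝ) => (γ.symm p.1, p.2)) := by
    refine LipschitzWith.of_dist_le_mul fun p q => ?_
    rw [Prod.dist_eq, Prod.dist_eq]
    have h1 : dist p.2 q.2 ≤ K * max (dist p.1 q.1) (dist p.2 q.2) := by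
      calc dist p.2 q.2 ≤ max (dist p.1 q.1) (dist p.2 q.2) := le_max_right _ _
        _ = 1 * max (dist p.1 q.1) (dist p.2 q.2) := (one_mul _).symm
        _ ≤ _ := mul_le_mul_of_nonneg_right (by exact_mod_cast hK) (by positivity)
    have h2 : dist (γ.symm p.1) (γ.symm q.1) ≤ K * max (dist p.1 q.1) (dist p.2 q.2) := by
      calc dist (γ.symm p.1) (γ.symm q.1) ≤ K * dist p.1 q.1 := hγ.dist_le_mul _ _
        _ ≤ _ := mul_le_mul_of_nonneg_left (le_max_left _ _) (by positivity)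
    exact max_le h2 h1
  calc cost (γ.trans δ) ≤ μH[(Fintype.card ι : ℝ)] (off γ ∪ _) := measure_mono hsub
    _ ≤ μH[(Fintype.card ι : ℝ)] (off γ) + μH[(Fintype.card ι : ℝ)] _ := measure_union_le _ _
    _ ≤ _ := by
      gcongr
      · exact le_rfl
      · exact hL.hausdorffMeasure_image_le (by positivity) _

lemma const_ok (K : ℝ≥0) : ((max 1 K : ℝ≥0) : ℝ≥0∞) ^ (Fintype.card ι : ℝ) ≠ ⊤ ∧
    ((max 1 K : ℝ≥0) : ℝ≥0∞) ^ (Fintype.card ι : ℝ) ≠ 0 := by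
  refine ⟨ENNReal.rpow_ne_top_of_nonneg (by positivity) ENNReal.coe_ne_top, ?_⟩
  have : 0 < ((max 1 K : ℝ≥0) : ℝ≥0∞) := by
    rw [ENNReal.coe_pos]; exact lt_of_lt_of_le one_pos (le_max_left _ _)
  exact (ENNReal.rpow_pos this ENNReal.coe_ne_top).ne'

/-- Soft version: composing on the inside with maps of small cost changes the cost little. -/
lemma soft_pre {δ : (ι → ℝ) ≃ (ι → ℝ)} (hδ : BiLip δ) {ε : ℝ≥0∞} (hε : 0 < ε) :
    ∃ κ : ℝ≥0∞, 0 < κ ∧ ∀ γ : (ι → ℝ) ≃ (ι → ℝ), cost γ ≤ κ →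
      cost (γ.trans δ) ≤ cost δ + ε := by
  obtain ⟨⟨K, hK⟩, -⟩ := hδ
  have hK' : LipschitzWith (max 1 K) δ := hK.weaken (le_max_right _ _)
  obtain ⟨hCtop, hC0⟩ := const_ok (ι := ι) K
  set C : ℝ≥0∞ := ((max 1 K : ℝ≥0) : ℝ≥0∞) ^ (Fintype.card ι : ℝ) with hC
  refine ⟨ε / C, ENNReal.div_pos hε.ne' hCtop, fun γ hγ => ?_⟩
  refine (cost_trans_le (le_max_left _ _) hK').trans ?_
  gcongr
  calc C * cost γ ≤ C * (ε / C) := by gcongr
    _ = ε := ENNReal.mul_div_cancel hC0 hCtop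

/-- Soft version: composing on the outside with maps of small cost changes the cost little. -/
lemma soft_post {γ : (ι → ℝ) ≃ (ι → ℝ)} (hγ : BiLip γ) (hp : PresQ γ) {ε : ℝ≥0∞} (hε : 0 < ε) :
    ∃ κ : ℝ≥0∞, 0 < κ ∧ ∀ δ : (ι → ℝ) ≃ (ι → ℝ), cost δ ≤ κ →
      cost (γ.trans δ) ≤ cost γ + ε := by
  obtain ⟨-, ⟨K, hK⟩⟩ := hγ
  have hK' : LipschitzWith (max 1 K) γ.symm := hK.weaken (le_max_right _ _)
  obtain ⟨hCtop, hC0⟩ := const_ok (ι := ι) K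
  set C : ℝ≥0∞ := ((max 1 K : ℝ≥0) : ℝ≥0∞) ^ (Fintype.card ι : ℝ) with hC
  refine ⟨ε / C, ENNReal.div_pos hε.ne' hCtop, fun δ hδ => ?_⟩
  refine (cost_trans_le' (le_max_left _ _) hK' hp).trans ?_
  gcongr
  calc C * cost δ ≤ C * (ε / C) := by gcongr
    _ = ε := ENNReal.mul_div_cancel hC0 hCtop

end Pool.Agent.H25.GM
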