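import Mathlib

set_option autoImplicit false
set_option linter.unusedSectionVars false
set_option linter.unusedVariables false

open Set

namespace Pool.Agent.H25.GM

/-- Slope bounds. -/
def Slope (m L : ℝ) (h : ℝ → ℝ) : Prop :=
  ∀ s t, s ≤ t → m * (t - s) ≤ h t - h s ∧ h t - h s ≤ L * (t - s)

lemma slope_ite {m L c : ℝ} {h1 h2 : ℝ → ℝ} (e : h1 c = h2 c) (H1 : Slope m L h1)
    (H2 : Slope m L h2) : Slope m L (fun t => if t ≤ c then h1 t else h2 t) := by
  intro s t hst
  by_cases ht : t ≤ c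
  · have hs : s ≤ c := hst.trans ht
    simp only [if_pos ht, if_pos hs]
    exact H1 s t hst
  · push Not at ht
    by_cases hs : s ≤ c
    · simp only [if_neg ht.not_ge, if_pos hs]
      have a := H1 s c hs
      have b := H2 c t ht.le
      constructor
      · nlinarith [a.1, b.1]
      · nlinarith [a.2, b.2]
    · simp only [if_neg ht.not_ge, if_neg hs]
      exact H2 s t hst

lemma slope_affine {m L k : ℝ} (hm : m ≤ k) (hL : k ≤ L) (p q : ℝ) :
    Slope m L (fun t => p + k * (t - q)) := by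
  intro s t hst
  constructor
  · nlinarith
  · nlinarith

/-- A bi-Lipschitz increasing bijection of the line, equal to the identity outside `(0,1)`. -/
structure Hom where
  h : ℝ → ℝ
  m : ℝ
  L : ℝ
  hm : 0 < m
  hm1 : m ≤ 1
  hL1 : 1 ≤ L
  slope : Slope m L h
  left : ∀ t, t ≤ 0 → h t = t
  right : ∀ t, 1 ≤ t → h t = t

/-- A piecewise linear homeomorphism with prescribed values. -/
lemma exists_hom {a b a' b' : ℝ} (h0a : 0 < a) (hab : a < b) (hb1 : b < 1) (h0a' : 0 < a')
    (hab' : a' < b') (hb1' : b' < 1) :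
    ∃ H : Hom, ∀ t ∈ Icc a b, H.h t = a' + (b' - a') / (b - a) * (t - a) := by
  set k1 : ℝ := a' / a with hk1
  set k2 : ℝ := (b' - a') / (b - a) with hk2
  set k3 : ℝ := (1 - b') / (1 - b) with hk3
  have p1 : 0 < k1 := by positivity
  have p2 : 0 < k2 := div_pos (by linarith) (by linarith)
  have p3 : 0 < k3 := div_pos (by linarith) (by linarith)
  set m : ℝ := min 1 (min k1 (min k2 k3)) with hm
  set L : ℝ := max 1 (max k1 (max k2 k3)) with hL
  have e1 : m ≤ 1 := min_le_left _ _
  have e2 : m ≤ k1 := (min_le_right _ _).trans (min_le_left _ _)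
  have e3 : m ≤ k2 := (min_le_right _ _).trans ((min_le_right _ _).trans (min_le_left _ _))
  have e4 : m ≤ k3 := (min_le_right _ _).trans ((min_le_right _ _).trans (min_le_right _ _))
  have f1 : 1 ≤ L := le_max_left _ _
  have f2 : k1 ≤ L := (le_max_left _ _).trans (le_max_right _ _)
  have f3 : k2 ≤ L := (le_max_left _ _).trans ((le_max_right _ _).trans (le_max_right _ _))
  have f4 : k3 ≤ L := (le_max_right _ _).trans ((le_max_right _ _).trans (le_max_right _ _))
  have hmpos : 0 < m := by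
    rw [hm]; exact lt_min one_pos (lt_min p1 (lt_min p2 p3))
  set g : ℝ → ℝ := fun t => if t ≤ 0 then 0 + 1 * (t - 0) else
    if t ≤ a then 0 + k1 * (t - 0) else
      if t ≤ b then a' + k2 * (t - a) else
        if t ≤ 1 then b' + k3 * (t - b) else 0 + 1 * (t - 0) with hg
  have hba : b - a ≠ 0 := by linarith
  have h1b : 1 - b ≠ 0 := by linarith
  have ha0 : a ≠ 0 := h0a.ne'
  have s1 : Slope m L g := by
    refine slope_ite ?_ (slope_affine e1 f1 0 0) (slope_ite ?_ (slope_affine e2 f2 0 0)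
      (slope_ite ?_ (slope_affine e3 f3 a' a) (slope_ite ?_ (slope_affine e4 f4 b' b)
        (slope_affine e1 f1 0 0))))
    · simp [h0a.le]
    · simp only [if_pos hab.le, hk1]
      field_simp; ring
    · simp only [if_pos hb1.le, hk2]
      field_simp; ring
    · simp only [hk3]
      field_simp; ring
  refine ⟨⟨g, m, L, hmpos, e1, f1, s1, ?_, ?_⟩, ?_⟩
  · intro t ht
    simp [hg, ht]
  · intro t ht
    have n0 : ¬ t ≤ 0 := by linarith
    have n1 : ¬ t ≤ a := by linarith
    have n2 : ¬ t ≤ b := by linarith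
    simp only [hg, if_neg n0, if_neg n1, if_neg n2]
    split_ifs with h
    · have : t = 1 := le_antisymm h ht
      subst this
      simp only [hk3]
      field_simp; ring
    · ring
  · intro t ht
    have n0 : ¬ t ≤ 0 := by linarith [ht.1]
    simp only [hg, if_neg n0, if_pos ht.2]
    split_ifs with h
    · have : t = a := le_antisymm h ht.1
      subst this
      simp only [hk1]
      field_simp; ring
    · rfl

namespace Hom

variable (H : Hom)

/-- the interpolation between the identity and `h` -/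
noncomputable def G (s t : ℝ) : ℝ := t + s * (H.h t - t)

lemma G_slope {s : ℝ} (hs0 : 0 ≤ s) (hs1 : s ≤ 1) : Slope H.m H.L (H.G s) := by
  intro a b hab
  have h1 := H.slope a b hab
  have hm := H.hm1
  have hL := H.hL1
  unfold G
  constructor
  · have : H.m * (b - a) ≤ (b - a) := by nlinarith
    nlinarith [mul_le_mul_of_nonneg_left h1.1 hs0, mul_le_mul_of_nonneg_left this (sub_nonneg.2 hs1)]
  · have : (b - a) ≤ H.L * (b - a) := by nlinarith
    nlinarith [mul_le_mul_of_nonneg_left h1.2 hs0, mul_le_mul_of_nonneg_left this (sub_nonneg.2 hs1)]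

lemma G_left {s t : ℝ} (ht : t ≤ 0) : H.G s t = t := by
  unfold G; rw [H.left t ht]; ring

lemma G_right {s t : ℝ} (ht : 1 ≤ t) : H.G s t = t := by
  unfold G; rw [H.right t ht]; ring

lemma G_zero (t : ℝ) : H.G 0 t = t := by unfold G; ring

lemma G_one (t : ℝ) : H.G 1 t = H.h t := by unfold G; ring

lemma h_mono {s t : ℝ} (hst : s ≤ t) : H.h s ≤ H.h t := by
  have := (H.slope s t hst).1
  nlinarith [H.hm, mul_nonneg H.hm.le (sub_nonneg.2 hst)]

lemma abs_sub_le (t : ℝ) : |H.h t - t| ≤ 1 := by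
  rcases le_or_gt t 0 with h0 | h0
  · rw [H.left t h0]; simp
  · rcases le_or_gt 1 t with h1 | h1
    · rw [H.right t h1]; simp
    · have a := H.h_mono h0.le
      have b := H.h_mono h1.le
      rw [H.left 0 le_rfl] at a
      rw [H.right 1 le_rfl] at b
      rw [abs_le]; constructor <;> linarith

lemma G_lip {s s' t t' : ℝ} (hs0 : 0 ≤ s) (hs1 : s ≤ 1) :
    |H.G s t - H.G s' t'| ≤ H.L * |t - t'| + |s - s'| := by
  have h1 : |H.G s t - H.G s t'| ≤ H.L * |t - t'| := by
    rcases le_total t t' with h | h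
    · have := H.G_slope hs0 hs1 t t' h
      rw [abs_sub_comm, abs_of_nonneg, abs_sub_comm, abs_of_nonneg (sub_nonneg.2 h)]
      · exact this.2
      · nlinarith [H.hm, mul_nonneg H.hm.le (sub_nonneg.2 h), this.1]
    · have := H.G_slope hs0 hs1 t' t h
      rw [abs_of_nonneg, abs_of_nonneg (sub_nonneg.2 h)]
      · exact this.2
      · nlinarith [H.hm, mul_nonneg H.hm.le (sub_nonneg.2 h), this.1]
  have h2 : |H.G s t' - H.G s' t'| ≤ |s - s'| := by
    have : H.G s t' - H.G s' t' = (s - s') * (H.h t' - t') := by unfold G; ring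
    rw [this, abs_mul]
    nlinarith [H.abs_sub_le t', abs_nonneg (s - s')]
  calc |H.G s t - H.G s' t'| = |(H.G s t - H.G s t') + (H.G s t' - H.G s' t')| := by ring_nf
    _ ≤ |H.G s t - H.G s t'| + |H.G s t' - H.G s' t'| := abs_add_le _ _
    _ ≤ _ := add_le_add h1 h2

lemma G_antilip {s s' t t' : ℝ} (hs0 : 0 ≤ s) (hs1 : s ≤ 1) :
    H.m * |t - t'| ≤ |H.G s t - H.G s' t'| + |s - s'| := by
  have h1 : H.m * |t - t'| ≤ |H.G s t - H.G s t'| := by
    rcases le_total t t' with h | h
    · have := H.G_slope hs0 hs1 t t' h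
      rw [abs_sub_comm (H.G s t), abs_sub_comm t, abs_of_nonneg (sub_nonneg.2 h)]
      exact this.1.trans (le_abs_self _)
    · have := H.G_slope hs0 hs1 t' t h
      rw [abs_of_nonneg (sub_nonneg.2 h)]
      exact this.1.trans (le_abs_self _)
  have h2 : |H.G s t' - H.G s' t'| ≤ |s - s'| := by
    have : H.G s t' - H.G s' t' = (s - s') * (H.h t' - t') := by unfold G; ring
    rw [this, abs_mul]
    nlinarith [H.abs_sub_le t', abs_nonneg (s - s')]
  have h3 : |H.G s t - H.G s t'| ≤ |H.G s t - H.G s' t'| + |H.G s t' - H.G s' t'| := by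
    have : H.G s t - H.G s t' = (H.G s t - H.G s' t') - (H.G s t' - H.G s' t') := by ring
    rw [this]; exact abs_sub _ _
  linarith

lemma G_cont {s : ℝ} (hs0 : 0 ≤ s) (hs1 : s ≤ 1) : Continuous (H.G s) := by
  have : LipschitzWith (Real.toNNReal H.L) (H.G s) := by
    refine LipschitzWith.of_dist_le_mul fun a b => ?_
    rw [Real.dist_eq, Real.dist_eq, Real.coe_toNNReal _ (by linarith [H.hL1])]
    have := H.G_lip (s := s) (s' := s) (t := a) (t' := b) hs0 hs1
    simpa using this
  exact this.continuous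

lemma G_surj {s : ℝ} (hs0 : 0 ≤ s) (hs1 : s ≤ 1) (y : ℝ) : ∃ t, H.G s t = y := by
  rcases le_or_gt y 0 with h0 | h0
  · exact ⟨y, H.G_left h0⟩
  · rcases le_or_gt 1 y with h1 | h1
    · exact ⟨y, H.G_right h1⟩
    · have := intermediate_value_Icc (zero_le_one (α := ℝ)) (H.G_cont hs0 hs1).continuousOn
      have hy : y ∈ Icc (H.G s 0) (H.G s 1) := by
        rw [H.G_left le_rfl, H.G_right le_rfl]; exact ⟨h0.le, h1.le⟩
      obtain ⟨t, -, ht⟩ := this hy
      exact ⟨t, ht⟩

lemma G_mem {s t : ℝ} (hs0 : 0 ≤ s) (hs1 : s ≤ 1) (h0 : 0 ≤ t) (h1 : t ≤ 1) :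
    0 ≤ H.G s t ∧ H.G s t ≤ 1 := by
  have a := H.G_slope hs0 hs1 0 t h0
  have b := H.G_slope hs0 hs1 t 1 h1
  rw [H.G_left le_rfl] at a
  rw [H.G_right le_rfl] at b
  constructor
  · nlinarith [H.hm, mul_nonneg H.hm.le h0, a.1]
  · nlinarith [H.hm, mul_nonneg H.hm.le (sub_nonneg.2 h1), b.1]

end Hom

/-- A trapezoidal cutoff function: `1` on `[l-η,u+η]`, `0` outside `[l-2η,u+2η]`. -/
noncomputable def tr (l u η t : ℝ) : ℝ := max 0 (min 1 (2 - max (l - t) (t - u) / η))

lemma tr_nonneg (l u η t : ℝ) : 0 ≤ tr l u η t := le_max_left _ _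

lemma tr_le_one (l u η t : ℝ) : tr l u η t ≤ 1 := max_le zero_le_one (min_le_left _ _)

lemma tr_eq_one {l u η t : ℝ} (hη : 0 < η) (h1 : l - η ≤ t) (h2 : t ≤ u + η) :
    tr l u η t = 1 := by
  have : max (l - t) (t - u) / η ≤ 1 := by
    rw [div_le_one hη]; exact max_le (by linarith) (by linarith)
  unfold tr
  rw [min_eq_left (by linarith)]
  exact max_eq_right zero_le_one

lemma tr_pos {l u η t : ℝ} (hη : 0 < η) (h : 0 < tr l u η t) : l - 2 * η < t ∧ t < u + 2 * η := by
  have h1 : 0 < min 1 (2 - max (l - t) (t - u) / η) := by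
    unfold tr at h
    rcases lt_max_iff.1 h with h | h
    · exact absurd h (lt_irrefl _)
    · exact h
  have h2 : 0 < 2 - max (l - t) (t - u) / η := (lt_min_iff.1 h1).2
  have h3 : max (l - t) (t - u) < 2 * η := by
    rw [← div_lt_iff₀ hη]; linarith
  constructor
  · linarith [lt_of_le_of_lt (le_max_left (l - t) (t - u)) h3]
  · linarith [lt_of_le_of_lt (le_max_right (l - t) (t - u)) h3]

lemma tr_mid {l u η t : ℝ} (hη : 0 < η) (h : 0 < tr l u η t) (h' : tr l u η t < 1) :
    t = u + η * (2 - tr l u η t) ∨ t = l - η * (2 - tr l u η t) := by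
  have e : tr l u η t = 2 - max (l - t) (t - u) / η := by
    unfold tr at h h' ⊢
    rcases le_total (min 1 (2 - max (l - t) (t - u) / η)) 0 with h1 | h1
    · rw [max_eq_left h1] at h; exact absurd h (lt_irrefl _)
    · rw [max_eq_right h1] at h' ⊢
      rcases le_total 1 (2 - max (l - t) (t - u) / η) with h2 | h2
      · rw [min_eq_left h2] at h'; exact absurd h' (lt_irrefl _)
      · rw [min_eq_right h2]
  have e2 : η * (2 - tr l u η t) = max (l - t) (t - u) := by
    rw [e]; field_simp; ring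
  rw [e2]
  rcases max_choice (l - t) (t - u) with h1 | h1
  · right; rw [h1]; ring
  · left; rw [h1]; ring

lemma tr_lip (l u : ℝ) {η : ℝ} (hη : 0 < η) (t t' : ℝ) :
    |tr l u η t - tr l u η t'| ≤ (1 / η) * |t - t'| := by
  unfold tr
  have h1 := abs_max_sub_max_le_max 0 (min 1 (2 - max (l - t) (t - u) / η)) 0
    (min 1 (2 - max (l - t') (t' - u) / η))
  have h2 := abs_min_sub_min_le_max 1 (2 - max (l - t) (t - u) / η) 1
    (2 - max (l - t') (t' - u) / η)
  have h3 := abs_max_sub_max_le_max (l - t) (t - u) (l - t') (t' - u)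
  have h4 : |(2 - max (l - t) (t - u) / η) - (2 - max (l - t') (t' - u) / η)| ≤
      (1 / η) * |t - t'| := by
    have : (2 - max (l - t) (t - u) / η) - (2 - max (l - t') (t' - u) / η) =
        -((1 / η) * (max (l - t) (t - u) - max (l - t') (t' - u))) := by ring
    rw [this, abs_neg, abs_mul, abs_of_pos (by positivity : (0:ℝ) < 1 / η)]
    refine mul_le_mul_of_nonneg_left (h3.trans ?_) (by positivity)
    refine max_le ?_ ?_
    · rw [show l - t - (l - t') = -(t - t') by ring, abs_neg]
    · rw [show t - u - (t' - u) = t - t' by ring]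
  have hnn : (0:ℝ) ≤ (1 / η) * |t - t'| := by positivity
  refine h1.trans (max_le (by simpa using hnn) (h2.trans (max_le (by simpa using hnn) h4)))

end Pool.Agent.H25.GM
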