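import Mathlib
import Pool.Agent.H25.GM.Basic
import Pool.Agent.H25.GM.PL

set_option autoImplicit false
set_option linter.unusedSectionVars false
set_option linter.unusedVariables false
set_option linter.deprecated false

open MeasureTheory MeasureTheory.Measure Set
open scoped ENNReal NNReal

namespace Pool.Agent.H25.GM

variable {ι : Type} [Fintype ι] [DecidableEq ι]

/-- The data of an elementary move: the coordinate `i` is moved by a homeomorphism of the line, with
a cutoff in three other coordinates. -/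
structure MoveData (ι : Type) where
  H : Hom
  i : ι
  j : Fin 3 → ι
  l : Fin 3 → ℝ
  u : Fin 3 → ℝ
  hij : ∀ a, j a ≠ i
  jinj : Function.Injective j

namespace MoveData

variable (D : MoveData ι)

/-- the cutoff -/
noncomputable def chi (η : ℝ) (x : ι → ℝ) : ℝ :=
  min (tr (D.l 0) (D.u 0) η (x (D.j 0)))
    (min (tr (D.l 1) (D.u 1) η (x (D.j 1))) (tr (D.l 2) (D.u 2) η (x (D.j 2))))

lemma chi_nonneg (η : ℝ) (x : ι → ℝ) : 0 ≤ D.chi η x :=
  le_min (tr_nonneg _ _ _ _) (le_min (tr_nonneg _ _ _ _) (tr_nonneg _ _ _ _))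

lemma chi_le_one (η : ℝ) (x : ι → ℝ) : D.chi η x ≤ 1 := (min_le_left _ _).trans (tr_le_one _ _ _ _)

lemma chi_le (η : ℝ) (x : ι → ℝ) (a : Fin 3) : D.chi η x ≤ tr (D.l a) (D.u a) η (x (D.j a)) := by
  fin_cases a
  · exact min_le_left _ _
  · exact (min_le_right _ _).trans (min_le_left _ _)
  · exact (min_le_right _ _).trans (min_le_right _ _)

lemma chi_exists (η : ℝ) (x : ι → ℝ) : ∃ a : Fin 3,
    D.chi η x = tr (D.l a) (D.u a) η (x (D.j a)) := by
  unfold chi
  rcases min_choice (tr (D.l 0) (D.u 0) η (x (D.j 0)))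
    (min (tr (D.l 1) (D.u 1) η (x (D.j 1))) (tr (D.l 2) (D.u 2) η (x (D.j 2)))) with h | h
  · exact ⟨0, h⟩
  · rcases min_choice (tr (D.l 1) (D.u 1) η (x (D.j 1))) (tr (D.l 2) (D.u 2) η (x (D.j 2))) with h' | h'
    · exact ⟨1, by rw [h, h']⟩
    · exact ⟨2, by rw [h, h']⟩

lemma chi_eq_one {η : ℝ} (hη : 0 < η) {x : ι → ℝ}
    (h : ∀ a, D.l a - η ≤ x (D.j a) ∧ x (D.j a) ≤ D.u a + η) : D.chi η x = 1 := by
  obtain ⟨a, ha⟩ := D.chi_exists η x
  rw [ha]; exact tr_eq_one hη (h a).1 (h a).2

lemma chi_congr {η : ℝ} {x y : ι → ℝ} (h : ∀ a, x (D.j a) = y (D.j a)) :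
    D.chi η x = D.chi η y := by
  unfold chi; rw [h, h, h]

lemma chi_lip {η : ℝ} (hη : 0 < η) (x y : ι → ℝ) (B : ℝ)
    (hB : ∀ a, |x (D.j a) - y (D.j a)| ≤ B) :
    |D.chi η x - D.chi η y| ≤ (1 / η) * B := by
  have key : ∀ a, |tr (D.l a) (D.u a) η (x (D.j a)) - tr (D.l a) (D.u a) η (y (D.j a))| ≤
      (1 / η) * B := fun a =>
    (tr_lip _ _ hη _ _).trans (mul_le_mul_of_nonneg_left (hB a) (by positivity))
  unfold chi
  refine (abs_min_sub_min_le_max _ _ _ _).trans (max_le (key 0) ?_)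
  exact (abs_min_sub_min_le_max _ _ _ _).trans (max_le (key 1) (key 2))

/-- the move -/
noncomputable def mv (η : ℝ) (x : ι → ℝ) : ι → ℝ :=
  Function.update x D.i (D.H.G (D.chi η x) (x D.i))

lemma mv_same (η : ℝ) (x : ι → ℝ) : D.mv η x D.i = D.H.G (D.chi η x) (x D.i) := by
  simp [mv]

lemma mv_ne (η : ℝ) (x : ι → ℝ) {k : ι} (hk : k ≠ D.i) : D.mv η x k = x k := by
  simp [mv, hk]

lemma chi_mv (η : ℝ) (x : ι → ℝ) : D.chi η (D.mv η x) = D.chi η x :=
  D.chi_congr fun a => D.mv_ne η x (D.hij a)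

lemma mv_antilip {η : ℝ} (hη : 0 < η) (x y : ι → ℝ) :
    dist x y ≤ ((1 + 1 / η) / D.H.m) * dist (D.mv η x) (D.mv η y) := by
  have hm := D.H.hm
  have hm1 := D.H.hm1
  set R := dist (D.mv η x) (D.mv η y) with hR
  have hR0 : 0 ≤ R := dist_nonneg
  have hC : 1 ≤ (1 + 1 / η) / D.H.m := by
    rw [le_div_iff₀ hm]
    have : 0 < 1 / η := by positivity
    linarith
  have hk : ∀ k, |D.mv η x k - D.mv η y k| ≤ R := fun k => by
    rw [← Real.dist_eq]; exact dist_le_pi_dist _ _ k
  rw [dist_pi_le_iff (by positivity)]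
  intro k
  rw [Real.dist_eq]
  by_cases hki : k = D.i
  · subst hki
    have h1 := D.H.G_antilip (s := D.chi η x) (s' := D.chi η y) (t := x D.i) (t' := y D.i)
      (D.chi_nonneg η x) (D.chi_le_one η x)
    have h2 : |D.chi η x - D.chi η y| ≤ (1 / η) * R := by
      apply D.chi_lip hη
      intro a
      have := hk (D.j a)
      rwa [D.mv_ne η x (D.hij a), D.mv_ne η y (D.hij a)] at this
    have h3 := hk D.i
    rw [mv_same, mv_same] at h3
    rw [div_mul_eq_mul_div, le_div_iff₀ hm]
    linarith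
  · have := hk k
    rw [D.mv_ne η x hki, D.mv_ne η y hki] at this
    refine this.trans ?_
    nlinarith

lemma mv_lip {η : ℝ} (hη : 0 < η) (x y : ι → ℝ) :
    dist (D.mv η x) (D.mv η y) ≤ (D.H.L + 1 / η) * dist x y := by
  have hL := D.H.hL1
  have h0 : 0 < 1 / η := by positivity
  have hk : ∀ k, |x k - y k| ≤ dist x y := fun k => by
    rw [← Real.dist_eq]; exact dist_le_pi_dist _ _ k
  have hd : 0 ≤ dist x y := dist_nonneg
  rw [dist_pi_le_iff (by positivity)]
  intro k
  rw [Real.dist_eq]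
  by_cases hki : k = D.i
  · subst hki
    rw [mv_same, mv_same]
    have h1 := D.H.G_lip (s := D.chi η x) (s' := D.chi η y) (t := x D.i) (t' := y D.i)
      (D.chi_nonneg η x) (D.chi_le_one η x)
    have h2 : |D.chi η x - D.chi η y| ≤ (1 / η) * dist x y :=
      D.chi_lip hη _ _ _ fun a => hk _
    have h3 := mul_le_mul_of_nonneg_left (hk D.i) (by linarith : (0:ℝ) ≤ D.H.L)
    nlinarith
  · rw [D.mv_ne η x hki, D.mv_ne η y hki]
    refine (hk k).trans ?_
    nlinarith

lemma mv_bij {η : ℝ} (hη : 0 < η) : Function.Bijective (D.mv η) := by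
  constructor
  · intro x y hxy
    have := D.mv_antilip hη x y
    rw [hxy, dist_self, mul_zero] at this
    exact dist_le_zero.1 this
  · intro y
    obtain ⟨t, ht⟩ := D.H.G_surj (D.chi_nonneg η y) (D.chi_le_one η y) (y D.i)
    refine ⟨Function.update y D.i t, ?_⟩
    have hc : D.chi η (Function.update y D.i t) = D.chi η y :=
      D.chi_congr fun a => by simp [D.hij a]
    funext k
    by_cases hk : k = D.i
    · subst hk
      rw [mv_same, hc]
      simp [ht]
    · rw [D.mv_ne η _ hk]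
      simp [hk]

/-- the move as a bijection -/
noncomputable def eqv (η : ℝ) (hη : 0 < η) : (ι → ℝ) ≃ (ι → ℝ) :=
  Equiv.ofBijective (D.mv η) (D.mv_bij hη)

@[simp] lemma eqv_apply (η : ℝ) (hη : 0 < η) (x : ι → ℝ) : D.eqv η hη x = D.mv η x := rfl

lemma eqv_biLip (η : ℝ) (hη : 0 < η) : BiLip (D.eqv η hη) := by
  have hm := D.H.hm
  have hL := D.H.hL1
  have h0 : 0 < 1 / η := by positivity
  refine ⟨⟨Real.toNNReal (D.H.L + 1 / η), ?_⟩, ⟨Real.toNNReal ((1 + 1 / η) / D.H.m), ?_⟩⟩
  · refine LipschitzWith.of_dist_le_mul fun x y => ?_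
    rw [Real.coe_toNNReal _ (by positivity)]
    exact D.mv_lip hη x y
  · refine LipschitzWith.of_dist_le_mul fun x y => ?_
    rw [Real.coe_toNNReal _ (by positivity)]
    have := D.mv_antilip hη ((D.eqv η hη).symm x) ((D.eqv η hη).symm y)
    rw [← D.eqv_apply η hη, ← D.eqv_apply η hη] at this
    simpa using this

lemma eqv_presQ (η : ℝ) (hη : 0 < η) : PresQ (D.eqv η hη) := by
  intro x
  rw [eqv_apply]
  unfold Q
  simp only [mem_Icc, Pi.le_def, Pi.zero_apply, Pi.one_apply]
  have hs0 := D.chi_nonneg η x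
  have hs1 := D.chi_le_one η x
  constructor
  · rintro ⟨h1, h2⟩
    have hi0 := h1 D.i
    have hi1 := h2 D.i
    rw [mv_same] at hi0 hi1
    refine ⟨fun k => ?_, fun k => ?_⟩
    · by_cases hk : k = D.i
      · subst hk
        by_contra hneg
        push Not at hneg
        rw [D.H.G_left hneg.le] at hi0
        linarith
      · have := h1 k; rwa [D.mv_ne η x hk] at this
    · by_cases hk : k = D.i
      · subst hk
        by_contra hneg
        push Not at hneg
        rw [D.H.G_right hneg.le] at hi1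
        linarith
      · have := h2 k; rwa [D.mv_ne η x hk] at this
  · rintro ⟨h1, h2⟩
    have := D.H.G_mem hs0 hs1 (h1 D.i) (h2 D.i)
    refine ⟨fun k => ?_, fun k => ?_⟩
    · by_cases hk : k = D.i
      · subst hk; rw [mv_same]; exact this.1
      · rw [D.mv_ne η x hk]; exact h1 k
    · by_cases hk : k = D.i
      · subst hk; rw [mv_same]; exact this.2
      · rw [D.mv_ne η x hk]; exact h2 k

/-- the slab around `c` in direction `k`, in the cube -/
def Bx (k : ι) (c η : ℝ) : Set (ι → ℝ) := {z | z ∈ Q ι ∧ |z k - c| ≤ 2 * η}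

lemma measure_Bx (k : ι) (c : ℝ) {η : ℝ} (hη : 0 < η) :
    μH[(Fintype.card ι : ℝ)] (Bx k c η) ≤ ENNReal.ofReal (4 * η) := by
  rw [hausdorffMeasure_pi_real]
  have hsub : Bx k c η ⊆ Icc (Function.update 0 k (c - 2 * η)) (Function.update 1 k (c + 2 * η)) := by
    rintro z ⟨hz, hzk⟩
    rw [abs_le] at hzk
    unfold Q at hz
    simp only [mem_Icc, Pi.le_def] at hz ⊢
    refine ⟨fun a => ?_, fun a => ?_⟩
    · by_cases ha : a = k
      · subst ha; simp; linarith [hzk.1]
      · simp [ha]; simpa using hz.1 a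
    · by_cases ha : a = k
      · subst ha; simp; linarith [hzk.2]
      · simp [ha]; simpa using hz.2 a
  refine (measure_mono hsub).trans ?_
  rw [Real.volume_Icc_pi]
  rw [← Finset.mul_prod_erase Finset.univ _ (Finset.mem_univ k)]
  have h1 : ∏ a ∈ Finset.univ.erase k, ENNReal.ofReal
      ((Function.update (1 : ι → ℝ) k (c + 2 * η)) a - (Function.update (0 : ι → ℝ) k (c - 2 * η)) a)
      = 1 := by
    refine Finset.prod_eq_one fun a ha => ?_
    have : a ≠ k := (Finset.mem_erase.1 ha).1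
    simp [this]
  rw [h1, mul_one]
  refine ENNReal.ofReal_le_ofReal ?_
  simp; linarith

/-- parametrisation of the part of the graph where the cutoff is one -/
noncomputable def Phi0 (x : ι → ℝ) : (ι → ℝ) × (ι → ℝ) :=
  (x, Function.update x D.i (D.H.G 1 (x D.i)))

/-- parametrisation of the part of the graph where the cutoff is `z (j a)`, with `b + c (2 - z (j a))`
the value of the coordinate `j a` -/
noncomputable def Phi (a : Fin 3) (b c : ℝ) (z : ι → ℝ) : (ι → ℝ) × (ι → ℝ) :=
  (Function.update z (D.j a) (b + c * (2 - z (D.j a))),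
    Function.update (Function.update z (D.j a) (b + c * (2 - z (D.j a)))) D.i
      (D.H.G (z (D.j a)) (z D.i)))

lemma Phi0_lip : LipschitzWith (Real.toNNReal (D.H.L + 1)) D.Phi0 := by
  have hL := D.H.hL1
  refine LipschitzWith.of_dist_le_mul fun x y => ?_
  rw [Real.coe_toNNReal _ (by linarith)]
  have hk : ∀ k, |x k - y k| ≤ dist x y := fun k => by
    rw [← Real.dist_eq]; exact dist_le_pi_dist _ _ k
  have hd : 0 ≤ dist x y := dist_nonneg
  rw [Prod.dist_eq]
  refine max_le ?_ ?_
  · simp only [Phi0]; nlinarith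
  · rw [dist_pi_le_iff (by positivity)]
    intro k
    rw [Real.dist_eq]
    simp only [Phi0]
    by_cases hki : k = D.i
    · subst hki
      simp only [Function.update_self]
      have h1 := D.H.G_lip (s := 1) (s' := 1) (t := x D.i) (t' := y D.i) zero_le_one le_rfl
      have h3 := mul_le_mul_of_nonneg_left (hk D.i) (by linarith : (0:ℝ) ≤ D.H.L)
      simp only [sub_self, abs_zero, add_zero] at h1
      nlinarith
    · simp only [Function.update_of_ne hki]
      have := hk k
      nlinarith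

lemma Phi_lip (a : Fin 3) (b : ℝ) {c : ℝ} (hc : |c| ≤ 1) :
    LipschitzOnWith (Real.toNNReal (D.H.L + 1)) (D.Phi a b c) (Q ι) := by
  have hL := D.H.hL1
  refine LipschitzOnWith.of_dist_le_mul fun x hx y hy => ?_
  rw [Real.coe_toNNReal _ (by linarith)]
  have hk : ∀ k, |x k - y k| ≤ dist x y := fun k => by
    rw [← Real.dist_eq]; exact dist_le_pi_dist _ _ k
  have hd : 0 ≤ dist x y := dist_nonneg
  have hLd : 0 ≤ D.H.L * dist x y := mul_nonneg (by linarith) hd
  have hxj : 0 ≤ x (D.j a) ∧ x (D.j a) ≤ 1 := ⟨hx.1 _, hx.2 _⟩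
  have hja : |(b + c * (2 - x (D.j a))) - (b + c * (2 - y (D.j a)))| ≤ dist x y := by
    have : (b + c * (2 - x (D.j a))) - (b + c * (2 - y (D.j a))) = -(c * (x (D.j a) - y (D.j a))) := by
      ring
    rw [this, abs_neg, abs_mul]
    calc |c| * |x (D.j a) - y (D.j a)| ≤ 1 * |x (D.j a) - y (D.j a)| :=
          mul_le_mul_of_nonneg_right hc (abs_nonneg _)
      _ ≤ dist x y := by rw [one_mul]; exact hk _
  have first : ∀ k, |Function.update x (D.j a) (b + c * (2 - x (D.j a))) k -
      Function.update y (D.j a) (b + c * (2 - y (D.j a))) k| ≤ dist x y := by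
    intro k
    by_cases hkj : k = D.j a
    · subst hkj
      simp only [Function.update_self]
      exact hja
    · simp only [Function.update_of_ne hkj]
      exact hk k
  rw [Prod.dist_eq]
  refine max_le ?_ ?_
  · rw [dist_pi_le_iff (by positivity)]
    intro k
    rw [Real.dist_eq]
    simp only [Phi]
    exact (first k).trans (by nlinarith)
  · rw [dist_pi_le_iff (by positivity)]
    intro k
    rw [Real.dist_eq]
    simp only [Phi]
    by_cases hki : k = D.i
    · subst hki
      simp only [Function.update_self]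
      have h1 := D.H.G_lip (s := x (D.j a)) (s' := y (D.j a)) (t := x D.i) (t' := y D.i)
        hxj.1 hxj.2
      have h3 := mul_le_mul_of_nonneg_left (hk D.i) (by linarith : (0:ℝ) ≤ D.H.L)
      have h4 := hk (D.j a)
      nlinarith
    · simp only [Function.update_of_ne hki]
      exact (first k).trans (by nlinarith)

/-- the core has codimension at least two: for each cutoff coordinate there is another one that is
thin -/
def Thin : Prop := ∀ a, ∃ b, b ≠ a ∧ D.l b = D.u b

lemma off_subset (hthin : D.Thin) {η : ℝ} (hη : 0 < η) :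
    ∃ t : Fin 3 → Fin 3, off (D.mv η) ⊆ D.Phi0 '' Bx (D.j (t 0)) (D.u (t 0)) η ∪
      ⋃ a : Fin 3, (D.Phi a (D.u a) η '' Bx (D.j (t a)) (D.u (t a)) η ∪
        D.Phi a (D.l a) (-η) '' Bx (D.j (t a)) (D.u (t a)) η) := by
  choose t ht1 ht2 using hthin
  refine ⟨t, ?_⟩
  rintro ⟨x, y⟩ ⟨hx, hy, hne⟩
  simp only at hx hy hne
  have hs0 := D.chi_nonneg η x
  have hs1 := D.chi_le_one η x
  rcases hs0.eq_or_lt with h0 | h0
  · exfalso
    apply hne
    rw [hy]
    unfold mv
    rw [← h0, D.H.G_zero]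
    simp
  have habs : ∀ b, D.l b = D.u b → |x (D.j b) - D.u b| ≤ 2 * η := by
    intro b hb
    have := tr_pos hη (lt_of_lt_of_le h0 (D.chi_le η x b))
    rw [abs_le]
    constructor <;> linarith [this.1, this.2]
  rcases hs1.eq_or_lt with h1 | h1
  · left
    refine ⟨x, ⟨hx, habs _ (ht2 0)⟩, ?_⟩
    rw [hy]
    simp only [Phi0, mv, h1]
  · right
    obtain ⟨a, ha⟩ := D.chi_exists η x
    rw [mem_iUnion]
    refine ⟨a, ?_⟩
    set s := D.chi η x with hs
    have hzQ : Function.update x (D.j a) s ∈ Q ι := by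
      constructor
      · intro k
        by_cases hk : k = D.j a
        · subst hk; simp; exact h0.le
        · simp only [Function.update_of_ne hk]; exact hx.1 k
      · intro k
        by_cases hk : k = D.j a
        · subst hk; simp; exact h1.le
        · simp only [Function.update_of_ne hk]; exact hx.2 k
    have hne' : D.j (t a) ≠ D.j a := fun h => ht1 a (D.jinj h)
    have hzB : Function.update x (D.j a) s ∈ Bx (D.j (t a)) (D.u (t a)) η := by
      refine ⟨hzQ, ?_⟩
      rw [Function.update_of_ne hne']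
      exact habs _ (ht2 a)
    have hmid := tr_mid hη (ha ▸ h0) (ha ▸ h1)
    rw [← ha] at hmid
    rcases hmid with h | h
    · left
      refine ⟨_, hzB, ?_⟩
      have e1 : Function.update (Function.update x (D.j a) s) (D.j a) (D.u a + η * (2 - s)) = x := by
        rw [Function.update_idem, ← h, Function.update_eq_self]
      simp only [Phi, Function.update_self, e1]
      rw [hy]
      congr 1
      unfold mv
      rw [Function.update_of_ne (D.hij a).symm]
    · right
      refine ⟨_, hzB, ?_⟩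
      have e1 : Function.update (Function.update x (D.j a) s) (D.j a) (D.l a + -η * (2 - s)) = x := by
        rw [Function.update_idem]
        have : D.l a + -η * (2 - s) = x (D.j a) := by rw [h]; ring
        rw [this, Function.update_eq_self]
      simp only [Phi, Function.update_self, e1]
      rw [hy]
      congr 1
      unfold mv
      rw [Function.update_of_ne (D.hij a).symm]

lemma cost_le (hthin : D.Thin) {η : ℝ} (hη : 0 < η) (hη1 : η ≤ 1) :
    cost (D.mv η) ≤ 7 * ((Real.toNNReal (D.H.L + 1) : ℝ≥0∞) ^ (Fintype.card ι : ℝ) *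
      ENNReal.ofReal (4 * η)) := by
  obtain ⟨t, ht⟩ := D.off_subset hthin hη
  set K : ℝ≥0∞ := (Real.toNNReal (D.H.L + 1) : ℝ≥0∞) ^ (Fintype.card ι : ℝ) *
      ENNReal.ofReal (4 * η) with hK
  have b0 : ∀ k c, μH[(Fintype.card ι : ℝ)] (D.Phi0 '' Bx k c η) ≤ K := by
    intro k c
    refine (D.Phi0_lip.hausdorffMeasure_image_le (by positivity) _).trans ?_
    rw [hK]; gcongr; exact measure_Bx k c hη
  have b1 : ∀ (a : Fin 3) (b c : ℝ), |c| ≤ 1 → ∀ k c', μH[(Fintype.card ι : ℝ)]
      (D.Phi a b c '' Bx k c' η) ≤ K := by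
    intro a b c hc k c'
    have : LipschitzOnWith (Real.toNNReal (D.H.L + 1)) (D.Phi a b c) (Bx k c' η) :=
      (D.Phi_lip a b hc).mono fun z hz => hz.1
    refine (this.hausdorffMeasure_image_le (by positivity)).trans ?_
    rw [hK]; gcongr; exact measure_Bx k c' hη
  have habs : |η| ≤ 1 := by rw [abs_of_pos hη]; exact hη1
  have habs' : |-η| ≤ 1 := by rw [abs_neg]; exact habs
  calc cost (D.mv η) ≤ μH[(Fintype.card ι : ℝ)] (D.Phi0 '' Bx (D.j (t 0)) (D.u (t 0)) η ∪
      ⋃ a : Fin 3, (D.Phi a (D.u a) η '' Bx (D.j (t a)) (D.u (t a)) η ∪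
        D.Phi a (D.l a) (-η) '' Bx (D.j (t a)) (D.u (t a)) η)) := measure_mono ht
    _ ≤ μH[(Fintype.card ι : ℝ)] (D.Phi0 '' Bx (D.j (t 0)) (D.u (t 0)) η) +
        μH[(Fintype.card ι : ℝ)] (⋃ a : Fin 3, (D.Phi a (D.u a) η '' Bx (D.j (t a)) (D.u (t a)) η ∪
        D.Phi a (D.l a) (-η) '' Bx (D.j (t a)) (D.u (t a)) η)) := measure_union_le _ _
    _ ≤ K + ∑ a : Fin 3, (K + K) := by
        gcongr
        · exact b0 _ _
        · refine (measure_iUnion_fintype_le _ _).trans ?_
          refine Finset.sum_le_sum fun a _ => ?_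
          exact (measure_union_le _ _).trans (add_le_add (b1 _ _ _ habs _ _) (b1 _ _ _ habs' _ _))
    _ = 7 * K := by
        simp only [Finset.sum_const, Finset.card_univ, Fintype.card_fin, nsmul_eq_mul]
        push_cast; ring

lemma exists_small (hthin : D.Thin) {ε : ℝ≥0∞} (hε : 0 < ε) :
    ∃ η₀ : ℝ, 0 < η₀ ∧ ∀ η : ℝ, 0 < η → η ≤ η₀ → cost (D.mv η) ≤ ε := by
  set C : ℝ≥0∞ := 7 * (Real.toNNReal (D.H.L + 1) : ℝ≥0∞) ^ (Fintype.card ι : ℝ) with hC
  have hCtop : C ≠ ⊤ := by
    rw [hC]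
    exact ENNReal.mul_ne_top (by norm_num)
      (ENNReal.rpow_ne_top_of_nonneg (by positivity) ENNReal.coe_ne_top)
  have ht : Filter.Tendsto (fun η : ℝ => C * ENNReal.ofReal (4 * η)) (nhds 0) (nhds 0) := by
    have hcont : Continuous fun η : ℝ => ENNReal.ofReal (4 * η) :=
      ENNReal.continuous_ofReal.comp (continuous_const.mul continuous_id)
    have h1 := hcont.tendsto 0
    have h2 : ENNReal.ofReal (4 * (0:ℝ)) = 0 := by simp
    rw [h2] at h1
    have h3 := ENNReal.Tendsto.const_mul h1 (Or.inr hCtop)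
    rwa [mul_zero] at h3
  have hev := ht.eventually (gt_mem_nhds hε)
  obtain ⟨δ, hδ, hb⟩ := Metric.eventually_nhds_iff.1 hev
  refine ⟨min 1 (δ / 2), by positivity, fun η h0 h1 => ?_⟩
  have hη1 : η ≤ 1 := h1.trans (min_le_left _ _)
  have hηδ : dist η 0 < δ := by
    rw [Real.dist_eq, sub_zero, abs_of_pos h0]
    have := h1.trans (min_le_right _ _)
    linarith
  refine (D.cost_le hthin h0 hη1).trans ?_
  rw [← mul_assoc]
  exact (hb hηδ).le

end MoveData

end Pool.Agent.H25.GM
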