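import Mathlib
import Pool.Agent.H25.GM.Basic
import Pool.Agent.H25.GM.PL
import Pool.Agent.H25.GM.Move

set_option autoImplicit false
set_option linter.unusedSectionVars false
set_option linter.unusedVariables false
set_option linter.deprecated false

open MeasureTheory MeasureTheory.Measure Set
open scoped ENNReal NNReal

namespace Pool.Agent.H25.GM

variable {ι : Type} [Fintype ι] [DecidableEq ι]

/-- Admissible maps: bi-Lipschitz, preserving the cube, equal to the identity unless the four active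
coordinates are in `(0,1)`, not changing the passive coordinates nor the third active one. -/
structure Good (e : Fin 4 → ι) (γ : (ι → ℝ) ≃ (ι → ℝ)) : Prop where
  bl : BiLip γ
  pq : PresQ γ
  supp : ∀ x, (∃ a, x (e a) ≤ 0 ∨ 1 ≤ x (e a)) → γ x = x
  pas : ∀ x k, k ∉ range e → γ x k = x k
  sep : ∀ x, γ x (e 2) = x (e 2)

/-- supported in a slab -/
def Slab (e : Fin 4 → ι) (τ κ : ℝ) (γ : (ι → ℝ) ≃ (ι → ℝ)) : Prop :=
  ∀ x, κ ≤ |x (e 2) - τ| → γ x = x

lemma Good.refl (e : Fin 4 → ι) : Good e (Equiv.refl _) :=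
  ⟨BiLip.refl, PresQ.refl, fun _ _ => rfl, fun _ _ _ => rfl, fun _ => rfl⟩

lemma symm_fix {γ : (ι → ℝ) ≃ (ι → ℝ)} {x : ι → ℝ} (h : γ x = x) : γ.symm x = x := by
  rw [Equiv.symm_apply_eq]; exact h.symm

lemma Good.symm {e : Fin 4 → ι} {γ : (ι → ℝ) ≃ (ι → ℝ)} (h : Good e γ) : Good e γ.symm := by
  refine ⟨h.bl.symm, h.pq.symm, fun x hx => symm_fix (h.supp x hx), fun x k hk => ?_, fun x => ?_⟩
  · have := h.pas (γ.symm x) k hk
    simpa using this.symm
  · have := h.sep (γ.symm x)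
    simpa using this.symm

lemma Good.trans {e : Fin 4 → ι} {γ δ : (ι → ℝ) ≃ (ι → ℝ)} (h : Good e γ) (h' : Good e δ) :
    Good e (γ.trans δ) := by
  refine ⟨h.bl.trans h'.bl, h.pq.trans h'.pq, fun x hx => ?_, fun x k hk => ?_, fun x => ?_⟩
  · simp only [Equiv.trans_apply]
    rw [h.supp x hx, h'.supp x hx]
  · simp only [Equiv.trans_apply]
    rw [h'.pas _ k hk, h.pas x k hk]
  · simp only [Equiv.trans_apply]
    rw [h'.sep, h.sep]

lemma Slab.symm {e : Fin 4 → ι} {τ κ : ℝ} {γ : (ι → ℝ) ≃ (ι → ℝ)} (h : Slab e τ κ γ) :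
    Slab e τ κ γ.symm := fun x hx => symm_fix (h x hx)

lemma Slab.trans {e : Fin 4 → ι} {τ κ : ℝ} {γ δ : (ι → ℝ) ≃ (ι → ℝ)} (h : Slab e τ κ γ)
    (h' : Slab e τ κ δ) : Slab e τ κ (γ.trans δ) := fun x hx => by
  simp only [Equiv.trans_apply]; rw [h x hx, h' x hx]

/-- the elementary move of the active coordinate `a`, with cutoff in the three others -/
def mk (e : Fin 4 → ι) (he : Function.Injective e) (H : Hom) (a : Fin 4) (l u : Fin 3 → ℝ) :
    MoveData ι where
  H := H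
  i := e a
  j := fun b => e (a.succAbove b)
  l := l
  u := u
  hij := fun b h => Fin.succAbove_ne a b (he h)
  jinj := fun b c h => Fin.succAbove_right_injective (he h)

variable (e : Fin 4 → ι) (he : Function.Injective e)

include he in
lemma mk_apply {H : Hom} {a : Fin 4} {l u : Fin 3 → ℝ} {η : ℝ} (hη : 0 < η) {x : ι → ℝ}
    (hx : ∀ b : Fin 3, l b - η ≤ x (e (a.succAbove b)) ∧ x (e (a.succAbove b)) ≤ u b + η) :
    (mk e he H a l u).eqv η hη x = Function.update x (e a) (H.h (x (e a))) := by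
  rw [MoveData.eqv_apply]
  unfold MoveData.mv
  have : (mk e he H a l u).chi η x = 1 := MoveData.chi_eq_one _ hη hx
  rw [this, Hom.G_one]
  rfl

include he in
lemma mk_good {H : Hom} {a : Fin 4} {l u : Fin 3 → ℝ} {τ κ : ℝ} (b₂ : Fin 3)
    (hb₂ : a.succAbove b₂ = 2) (hl : l b₂ = τ) (hu : u b₂ = τ) {η : ℝ} (hη : 0 < η)
    (hκ : 2 * η ≤ κ) (hlo : ∀ b, 2 * η ≤ l b) (hup : ∀ b, u b + 2 * η ≤ 1) :
    Good e ((mk e he H a l u).eqv η hη) ∧ Slab e τ κ ((mk e he H a l u).eqv η hη) := by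
  have ha2 : (2 : Fin 4) ≠ a := by rw [← hb₂]; exact Fin.succAbove_ne a b₂
  have hchi : ∀ x : ι → ℝ, (mk e he H a l u).chi η x = 0 →
      (mk e he H a l u).eqv η hη x = x := by
    intro x hx
    rw [MoveData.eqv_apply]
    unfold MoveData.mv
    rw [hx, Hom.G_zero]
    exact Function.update_eq_self _ _
  have hpos : ∀ x : ι → ℝ, (mk e he H a l u).chi η x ≠ 0 → ∀ b,
      l b - 2 * η < x (e (a.succAbove b)) ∧ x (e (a.succAbove b)) < u b + 2 * η := by
    intro x hx b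
    have h0 : 0 < (mk e he H a l u).chi η x :=
      lt_of_le_of_ne (MoveData.chi_nonneg _ _ _) (Ne.symm hx)
    exact tr_pos hη (lt_of_lt_of_le h0 (MoveData.chi_le _ _ _ b))
  refine ⟨⟨MoveData.eqv_biLip _ _ _, MoveData.eqv_presQ _ _ _, ?_, ?_, ?_⟩, ?_⟩
  · rintro x ⟨c, hc⟩
    by_cases hca : c = a
    · subst hca
      rw [MoveData.eqv_apply]
      unfold MoveData.mv
      show Function.update x (e c) (H.G _ (x (e c))) = x
      rcases hc with hc | hc
      · rw [H.G_left hc]; exact Function.update_eq_self _ _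
      · rw [H.G_right hc]; exact Function.update_eq_self _ _
    · obtain ⟨b, hb⟩ := Fin.exists_succAbove_eq hca
      apply hchi
      by_contra hne
      have := hpos x hne b
      rw [hb] at this
      rcases hc with hc | hc
      · have := hlo b; linarith
      · have := hup b; linarith
  · intro x k hk
    rw [MoveData.eqv_apply]
    refine MoveData.mv_ne _ η x ?_
    rintro rfl
    exact hk (mem_range_self _)
  · intro x
    rw [MoveData.eqv_apply]
    refine MoveData.mv_ne _ η x ?_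
    intro h
    exact ha2 (he h)
  · intro x hx
    apply hchi
    by_contra hne
    have := hpos x hne b₂
    rw [hb₂, hl, hu] at this
    have h2 : |x (e 2) - τ| < 2 * η := by
      rw [abs_lt]; constructor <;> linarith
    linarith

include he in
/-- Elementary moves: all that is needed. -/
lemma exists_move (H : Hom) (a : Fin 4) (l u : Fin 3 → ℝ) {τ κ : ℝ} (hκ : 0 < κ) (b₂ : Fin 3)
    (hb₂ : a.succAbove b₂ = 2) (hl : l b₂ = τ) (hu : u b₂ = τ)
    (hthin : ∀ b, ∃ c, c ≠ b ∧ l c = u c) (hlo : ∀ b, 0 < l b) (hup : ∀ b, u b < 1)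
    {ε : ℝ≥0∞} (hε : 0 < ε) :
    ∃ (η : ℝ) (γ : (ι → ℝ) ≃ (ι → ℝ)), 0 < η ∧ Good e γ ∧ Slab e τ κ γ ∧ cost γ ≤ ε ∧
      ∀ x : ι → ℝ, (∀ b : Fin 3, l b - η ≤ x (e (a.succAbove b)) ∧
        x (e (a.succAbove b)) ≤ u b + η) → γ x = Function.update x (e a) (H.h (x (e a))) := by
  obtain ⟨η₀, hη₀, hc⟩ := (mk e he H a l u).exists_small hthin hε
  have h1 : ∃ η₁ : ℝ, 0 < η₁ ∧ ∀ b, 2 * η₁ ≤ l b ∧ u b + 2 * η₁ ≤ 1 := by
    refine ⟨min (min (l 0) (1 - u 0)) (min (min (l 1) (1 - u 1)) (min (l 2) (1 - u 2))) / 2, ?_, ?_⟩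
    · have := hlo 0; have := hlo 1; have := hlo 2
      have := hup 0; have := hup 1; have := hup 2
      have : 0 < min (min (l 0) (1 - u 0)) (min (min (l 1) (1 - u 1)) (min (l 2) (1 - u 2))) := by
        refine lt_min (lt_min ?_ ?_) (lt_min (lt_min ?_ ?_) (lt_min ?_ ?_)) <;> linarith
      linarith
    · intro b
      set M := min (min (l 0) (1 - u 0)) (min (min (l 1) (1 - u 1)) (min (l 2) (1 - u 2))) with hM
      have m0 : M ≤ l 0 := (min_le_left _ _).trans (min_le_left _ _)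
      have m0' : M ≤ 1 - u 0 := (min_le_left _ _).trans (min_le_right _ _)
      have m1 : M ≤ l 1 := (min_le_right _ _).trans ((min_le_left _ _).trans (min_le_left _ _))
      have m1' : M ≤ 1 - u 1 := (min_le_right _ _).trans ((min_le_left _ _).trans (min_le_right _ _))
      have m2 : M ≤ l 2 := (min_le_right _ _).trans ((min_le_right _ _).trans (min_le_left _ _))
      have m2' : M ≤ 1 - u 2 := (min_le_right _ _).trans ((min_le_right _ _).trans (min_le_right _ _))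
      fin_cases b
      · simp only [Fin.zero_eta]; constructor <;> linarith
      · simp only [Fin.mk_one]; constructor <;> linarith
      · simp only [Fin.reduceFinMk]; constructor <;> linarith
  obtain ⟨η₁, hη₁, hb⟩ := h1
  have hη : 0 < min η₀ (min η₁ (κ / 2)) := by positivity
  have e1 : min η₀ (min η₁ (κ / 2)) ≤ η₀ := min_le_left _ _
  have e2 : min η₀ (min η₁ (κ / 2)) ≤ η₁ := (min_le_right _ _).trans (min_le_left _ _)
  have e3 : min η₀ (min η₁ (κ / 2)) ≤ κ / 2 := (min_le_right _ _).trans (min_le_right _ _)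
  obtain ⟨g1, g2⟩ := mk_good e he (H := H) (a := a) (l := l) (u := u) (κ := κ) b₂ hb₂ hl hu hη
    (by linarith) (fun b => by linarith [(hb b).1]) (fun b => by linarith [(hb b).2])
  exact ⟨_, _, hη, g1, g2, hc _ hη e1, fun x hx => mk_apply e he hη hx⟩

/-- Two vectors with the same active and passive coordinates are equal. -/
lemma ext4 {x y : ι → ℝ} (h : ∀ a, x (e a) = y (e a)) (hp : ∀ k, k ∉ range e → x k = y k) :
    x = y := by
  funext k
  by_cases hk : k ∈ range e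
  · obtain ⟨a, rfl⟩ := hk; exact h a
  · exact hp k hk

/-- change three active coordinates -/
def pt (x : ι → ℝ) (a b z : ℝ) : ι → ℝ :=
  Function.update (Function.update (Function.update x (e 0) a) (e 1) b) (e 3) z

include he in
lemma pt_0 (x : ι → ℝ) (a b z : ℝ) : pt e x a b z (e 0) = a := by
  have h1 : e 0 ≠ e 1 := fun h => by simpa using he h
  have h2 : e 0 ≠ e 3 := fun h => by simpa using he h
  simp [pt, h1, h2]

include he in
lemma pt_1 (x : ι → ℝ) (a b z : ℝ) : pt e x a b z (e 1) = b := by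
  have h2 : e 1 ≠ e 3 := fun h => by simpa using he h
  simp [pt, h2]

include he in
lemma pt_2 (x : ι → ℝ) (a b z : ℝ) : pt e x a b z (e 2) = x (e 2) := by
  have h0 : e 2 ≠ e 0 := fun h => by simpa using he h
  have h1 : e 2 ≠ e 1 := fun h => by simpa using he h
  have h2 : e 2 ≠ e 3 := fun h => by simpa using he h
  simp [pt, h0, h1, h2]

lemma pt_3 (x : ι → ℝ) (a b z : ℝ) : pt e x a b z (e 3) = z := by
  simp [pt]

lemma pt_p (x : ι → ℝ) (a b z : ℝ) {k : ι} (hk : k ∉ range e) : pt e x a b z k = x k := by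
  have h0 : k ≠ e 0 := fun h => hk ⟨0, h.symm⟩
  have h1 : k ≠ e 1 := fun h => hk ⟨1, h.symm⟩
  have h2 : k ≠ e 3 := fun h => hk ⟨3, h.symm⟩
  simp [pt, h0, h1, h2]

include he in
lemma upd_0 (x : ι → ℝ) (a b z a' : ℝ) : Function.update (pt e x a b z) (e 0) a' = pt e x a' b z := by
  have h1 : e 1 ≠ e 0 := fun h => by simpa using he h
  have h2 : e 2 ≠ e 0 := fun h => by simpa using he h
  have h3 : e 3 ≠ e 0 := fun h => by simpa using he h
  refine ext4 e (fun c => ?_) (fun k hk => ?_)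
  · fin_cases c
    · simp [pt_0 e he]
    · simp [pt_1 e he, h1]
    · simp [pt_2 e he, h2]
    · simp [pt_3 e, h3]
  · have h : k ≠ e 0 := fun h => hk ⟨0, h.symm⟩
    rw [Function.update_of_ne h, pt_p e _ _ _ _ hk, pt_p e _ _ _ _ hk]

include he in
lemma upd_1 (x : ι → ℝ) (a b z b' : ℝ) : Function.update (pt e x a b z) (e 1) b' = pt e x a b' z := by
  have h1 : e 0 ≠ e 1 := fun h => by simpa using he h
  have h2 : e 2 ≠ e 1 := fun h => by simpa using he h
  have h3 : e 3 ≠ e 1 := fun h => by simpa using he h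
  refine ext4 e (fun c => ?_) (fun k hk => ?_)
  · fin_cases c
    · simp [pt_0 e he, h1]
    · simp [pt_1 e he]
    · simp [pt_2 e he, h2]
    · simp [pt_3 e, h3]
  · have h : k ≠ e 1 := fun h => hk ⟨1, h.symm⟩
    rw [Function.update_of_ne h, pt_p e _ _ _ _ hk, pt_p e _ _ _ _ hk]

lemma upd_3 (x : ι → ℝ) (a b z z' : ℝ) : Function.update (pt e x a b z) (e 3) z' = pt e x a b z' := by
  simp [pt]

include he in
lemma pt_self (x : ι → ℝ) : pt e x (x (e 0)) (x (e 1)) (x (e 3)) = x := by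
  refine ext4 e (fun c => ?_) (fun k hk => pt_p e _ _ _ _ hk)
  fin_cases c
  · simp [pt_0 e he]
  · simp [pt_1 e he]
  · simp [pt_2 e he]
  · simp [pt_3 e]

include he in
/-- the translation move -/
lemma move_3 (H : Hom) {τ κ : ℝ} (hκ : 0 < κ) (hτ : 0 < τ) (hτ' : τ < 1) {ε : ℝ≥0∞} (hε : 0 < ε) :
    ∃ (η : ℝ) (γ : (ι → ℝ) ≃ (ι → ℝ)), 0 < η ∧ Good e γ ∧ Slab e τ κ γ ∧ cost γ ≤ ε ∧
      ∀ (x : ι → ℝ) (a b z : ℝ), |a - 1 / 2| ≤ η → |b - 1 / 2| ≤ η → |x (e 2) - τ| ≤ η →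
        γ (pt e x a b z) = pt e x a b (H.h z) := by
  obtain ⟨η, γ, h1, h2, h3, h4, h5⟩ := exists_move e he H 3 ![1 / 2, 1 / 2, τ] ![1 / 2, 1 / 2, τ]
    (τ := τ) hκ 2 (by decide) (by simp) (by simp)
    (fun b => by
      by_cases hb : b = 0
      · exact ⟨1, by rw [hb]; decide, rfl⟩
      · exact ⟨0, Ne.symm hb, rfl⟩)
    (fun b => by fin_cases b <;> simp [hτ])
    (fun b => by fin_cases b <;> simp [hτ'] <;> norm_num) hε
  refine ⟨η, γ, h1, h2, h3, h4, fun x a b z ha hb hc => ?_⟩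
  rw [abs_le] at ha hb hc
  rw [h5, pt_3, upd_3]
  intro d
  have e0 : (3 : Fin 4).succAbove 0 = 0 := by decide
  have e1 : (3 : Fin 4).succAbove 1 = 1 := by decide
  have e2 : (3 : Fin 4).succAbove 2 = 2 := by decide
  fin_cases d
  · simp only [Fin.zero_eta, Matrix.cons_val_zero, e0, pt_0 e he]; constructor <;> linarith
  · simp only [Fin.mk_one, Matrix.cons_val, e1, pt_1 e he]
    constructor <;> linarith
  · simp only [Fin.reduceFinMk, Matrix.cons_val, e2, pt_2 e he]; constructor <;> linarith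

include he in
/-- the stretching move in direction `e 0` -/
lemma move_0 (H : Hom) {l u ζ τ κ : ℝ} (hl : 0 < l) (hu : u < 1)
    (hζ : 0 < ζ) (hζ' : ζ < 1)
    (hκ : 0 < κ) (hτ : 0 < τ) (hτ' : τ < 1) {ε : ℝ≥0∞} (hε : 0 < ε) :
    ∃ (η : ℝ) (γ : (ι → ℝ) ≃ (ι → ℝ)), 0 < η ∧ Good e γ ∧ Slab e τ κ γ ∧ cost γ ≤ ε ∧
      ∀ (x : ι → ℝ) (a b z : ℝ), l ≤ b → b ≤ u → |z - ζ| ≤ η → |x (e 2) - τ| ≤ η →
        γ (pt e x a b z) = pt e x (H.h a) b z := by
  obtain ⟨η, γ, h1, h2, h3, h4, h5⟩ := exists_move e he H 0 ![l, τ, ζ] ![u, τ, ζ]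
    (τ := τ) hκ 1 (by decide) (by simp) (by simp)
    (fun b => by
      by_cases hb : b = 1
      · exact ⟨2, by rw [hb]; decide, rfl⟩
      · exact ⟨1, Ne.symm hb, rfl⟩)
    (fun b => by fin_cases b <;> simp [hτ, hl, hζ])
    (fun b => by fin_cases b <;> simp [hτ', hu, hζ']) hε
  refine ⟨η, γ, h1, h2, h3, h4, fun x a b z hb hb' hz hc => ?_⟩
  rw [abs_le] at hz hc
  rw [h5, pt_0 e he, upd_0 e he]
  intro d
  have e0 : (0 : Fin 4).succAbove 0 = 1 := by decide
  have e1 : (0 : Fin 4).succAbove 1 = 2 := by decide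
  have e2 : (0 : Fin 4).succAbove 2 = 3 := by decide
  fin_cases d
  · simp only [Fin.zero_eta, Matrix.cons_val_zero, e0, pt_1 e he]; constructor <;> linarith
  · simp only [Fin.mk_one, Matrix.cons_val, e1, pt_2 e he]
    constructor <;> linarith
  · simp only [Fin.reduceFinMk, Matrix.cons_val, e2, pt_3 e]; constructor <;> linarith

include he in
/-- the stretching move in direction `e 1` -/
lemma move_1 (H : Hom) {l u ζ τ κ : ℝ} (hl : 0 < l) (hu : u < 1)
    (hζ : 0 < ζ) (hζ' : ζ < 1)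
    (hκ : 0 < κ) (hτ : 0 < τ) (hτ' : τ < 1) {ε : ℝ≥0∞} (hε : 0 < ε) :
    ∃ (η : ℝ) (γ : (ι → ℝ) ≃ (ι → ℝ)), 0 < η ∧ Good e γ ∧ Slab e τ κ γ ∧ cost γ ≤ ε ∧
      ∀ (x : ι → ℝ) (a b z : ℝ), l ≤ a → a ≤ u → |z - ζ| ≤ η → |x (e 2) - τ| ≤ η →
        γ (pt e x a b z) = pt e x a (H.h b) z := by
  obtain ⟨η, γ, h1, h2, h3, h4, h5⟩ := exists_move e he H 1 ![l, τ, ζ] ![u, τ, ζ]
    (τ := τ) hκ 1 (by decide) (by simp) (by simp)
    (fun b => by
      by_cases hb : b = 1
      · exact ⟨2, by rw [hb]; decide, rfl⟩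
      · exact ⟨1, Ne.symm hb, rfl⟩)
    (fun b => by fin_cases b <;> simp [hτ, hl, hζ])
    (fun b => by fin_cases b <;> simp [hτ', hu, hζ']) hε
  refine ⟨η, γ, h1, h2, h3, h4, fun x a b z hb hb' hz hc => ?_⟩
  rw [abs_le] at hz hc
  rw [h5, pt_1 e he, upd_1 e he]
  intro d
  have e0 : (1 : Fin 4).succAbove 0 = 0 := by decide
  have e1 : (1 : Fin 4).succAbove 1 = 2 := by decide
  have e2 : (1 : Fin 4).succAbove 2 = 3 := by decide
  fin_cases d
  · simp only [Fin.zero_eta, Matrix.cons_val_zero, e0, pt_0 e he]; constructor <;> linarith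
  · simp only [Fin.mk_one, Matrix.cons_val, e1, pt_2 e he]
    constructor <;> linarith
  · simp only [Fin.reduceFinMk, Matrix.cons_val, e2, pt_3 e]; constructor <;> linarith

end Pool.Agent.H25.GM
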