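import Mathlib
import Pool.Agent.H25.GM.Model

set_option autoImplicit false
set_option linter.unusedSectionVars false
set_option linter.unusedVariables false
set_option linter.deprecated false

open MeasureTheory MeasureTheory.Measure Set
open scoped ENNReal NNReal

namespace Pool.Agent.H25.GM

variable {ι : Type} [Fintype ι] [DecidableEq ι]

variable (e : Fin 4 → ι) (he : Function.Injective e)

include he in
/-- A child map: translates a thin plate, at little cost. -/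
lemma child {iA iB jA jB : ℝ} (hiA : 0 ≤ iA ∧ iA ≤ 1) (hiB : 0 ≤ iB ∧ iB ≤ 1)
    (hjA : 0 ≤ jA ∧ jA ≤ 1) (hjB : 0 ≤ jB ∧ jB ≤ 1) {τ κ : ℝ} (hκ : 0 < κ) (hτ : 0 < τ)
    (hτ' : τ < 1) {ε : ℝ≥0∞} (hε : 0 < ε) :
    ∃ (ω : ℝ) (γ : (ι → ℝ) ≃ (ι → ℝ)), 0 < ω ∧ Good e γ ∧ Slab e τ κ γ ∧ cost γ ≤ ε ∧
      ∀ x : ι → ℝ, (1 + iA) / 6 ≤ x (e 0) → x (e 0) ≤ (4 + iA) / 6 → (1 + iB) / 6 ≤ x (e 1) →
        x (e 1) ≤ (4 + iB) / 6 → |x (e 2) - τ| ≤ ω → |x (e 3) - 1 / 3| ≤ ω →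
        γ x = pt e x (x (e 0) + (jA - iA) / 6) (x (e 1) + (jB - iB) / 6) (x (e 3) + 1 / 3) := by
  have hε5 : 0 < ε / 5 := ENNReal.div_pos hε.ne' (by norm_num)
  -- the translation
  obtain ⟨HT, hHT⟩ := exists_hom (a := 1 / 4) (b := 5 / 12) (a' := 7 / 12) (b' := 3 / 4)
    (by norm_num) (by norm_num) (by norm_num) (by norm_num) (by norm_num) (by norm_num)
  obtain ⟨η, T, hη, T1, T2, T3, T4⟩ := move_3 e he HT hκ hτ hτ' hε5
  obtain ⟨lam, hlam0, hlamη, hlam6⟩ : ∃ lam : ℝ, 0 < lam ∧ lam ≤ η ∧ lam ≤ 1 / 6 :=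
    ⟨min η (1 / 6), by positivity, min_le_left _ _, min_le_right _ _⟩
  -- the four stretchings
  have hom : ∀ i : ℝ, 0 ≤ i ∧ i ≤ 1 → ∃ H : Hom, ∀ t, (1 + i) / 6 ≤ t → t ≤ (4 + i) / 6 →
      (1 / 2 - lam ≤ 1 / 2 - lam + 4 * lam * (t - (1 + i) / 6) ∧
        1 / 2 - lam + 4 * lam * (t - (1 + i) / 6) ≤ 1 / 2 + lam) ∧
      H.h (1 / 2 - lam + 4 * lam * (t - (1 + i) / 6)) = t := by
    rintro i ⟨hi0, hi1⟩
    obtain ⟨H, hH⟩ := exists_hom (a := 1 / 2 - lam) (b := 1 / 2 + lam) (a' := (1 + i) / 6)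
      (b' := (4 + i) / 6) (by linarith) (by linarith) (by linarith) (by linarith) (by linarith)
      (by linarith)
    refine ⟨H, fun t ht1 ht2 => ?_⟩
    have b1 : 0 ≤ 4 * lam * (t - (1 + i) / 6) := by
      have : 0 ≤ t - (1 + i) / 6 := by linarith
      positivity
    have b2 : 4 * lam * (t - (1 + i) / 6) ≤ 2 * lam := by
      have : t - (1 + i) / 6 ≤ 1 / 2 := by linarith
      nlinarith
    refine ⟨⟨by linarith, by linarith⟩, ?_⟩
    rw [hH _ ⟨by linarith, by linarith⟩]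
    have : (1 / 2 + lam - (1 / 2 - lam)) ≠ 0 := by
      have : (1 / 2 + lam - (1 / 2 - lam)) = 2 * lam := by ring
      rw [this]; positivity
    field_simp
    ring
  obtain ⟨HiA, hHiA⟩ := hom iA hiA
  obtain ⟨HiB, hHiB⟩ := hom iB hiB
  obtain ⟨HjA, hHjA⟩ := hom jA hjA
  obtain ⟨HjB, hHjB⟩ := hom jB hjB
  -- first the outer ones
  obtain ⟨κ1, hκ1, K1⟩ := soft_post T1.bl T1.pq hε5
  obtain ⟨η1, E1, hη1, E11, E12, E13, E14⟩ := move_0 e he HjA (l := 1 / 2 - lam) (u := 1 / 2 + lam)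
    (ζ := 2 / 3) (by linarith) (by linarith) (by norm_num) (by norm_num) hκ hτ hτ' hκ1
  have c1 := K1 E1 E13
  have G1 := T1.trans E11
  have S1 := T2.trans E12
  set γ1 := T.trans E1 with hγ1
  obtain ⟨κ2, hκ2, K2⟩ := soft_post G1.bl G1.pq hε5
  obtain ⟨η2, E2, hη2, E21, E22, E23, E24⟩ := move_1 e he HjB (l := (1 + jA) / 6)
    (u := (4 + jA) / 6) (ζ := 2 / 3) (by linarith [hjA.1]) (by linarith [hjA.2]) (by norm_num)
    (by norm_num) hκ hτ hτ' hκ2
  have c2 := K2 E2 E23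
  have G2 := G1.trans E21
  have S2 := S1.trans E22
  set γ2 := γ1.trans E2 with hγ2
  -- then the inner ones
  obtain ⟨κ3, hκ3, K3⟩ := soft_pre G2.bl hε5
  obtain ⟨η3, E3, hη3, E31, E32, E33, E34⟩ := move_0 e he HiA (l := 1 / 2 - lam) (u := 1 / 2 + lam)
    (ζ := 1 / 3) (by linarith) (by linarith) (by norm_num) (by norm_num) hκ hτ hτ' hκ3
  have c3 := K3 E3.symm (by rw [cost_symm E31.pq]; exact E33)
  have G3 := E31.symm.trans G2
  have S3 := E32.symm.trans S2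
  set γ3 := E3.symm.trans γ2 with hγ3
  obtain ⟨κ4, hκ4, K4⟩ := soft_pre G3.bl hε5
  obtain ⟨η4, E4, hη4, E41, E42, E43, E44⟩ := move_1 e he HiB (l := (1 + iA) / 6)
    (u := (4 + iA) / 6) (ζ := 1 / 3) (by linarith [hiA.1]) (by linarith [hiA.2]) (by norm_num)
    (by norm_num) hκ hτ hτ' hκ4
  have c4 := K4 E4.symm (by rw [cost_symm E41.pq]; exact E43)
  have G4 := E41.symm.trans G3
  have S4 := E42.symm.trans S3
  set γ4 := E4.symm.trans γ3 with hγ4
  -- the width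
  obtain ⟨ω, hω, w0, w1, w2, w3, w4, w5⟩ : ∃ ω : ℝ, 0 < ω ∧ ω ≤ η ∧ ω ≤ η1 ∧ ω ≤ η2 ∧ ω ≤ η3 ∧
      ω ≤ η4 ∧ ω ≤ 1 / 12 := by
    refine ⟨min η (min η1 (min η2 (min η3 (min η4 (1 / 12))))), by positivity, ?_, ?_, ?_, ?_, ?_, ?_⟩
    · exact min_le_left _ _
    · exact (min_le_right _ _).trans (min_le_left _ _)
    · exact (min_le_right _ _).trans ((min_le_right _ _).trans (min_le_left _ _))
    · exact (min_le_right _ _).trans ((min_le_right _ _).trans ((min_le_right _ _).trans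
        (min_le_left _ _)))
    · exact (min_le_right _ _).trans ((min_le_right _ _).trans ((min_le_right _ _).trans
        ((min_le_right _ _).trans (min_le_left _ _))))
    · exact (min_le_right _ _).trans ((min_le_right _ _).trans ((min_le_right _ _).trans
        ((min_le_right _ _).trans (min_le_right _ _))))
  refine ⟨ω, γ4, hω, G4, S4, ?_, ?_⟩
  · have hsum : ε / 5 + ε / 5 + ε / 5 + ε / 5 + ε / 5 = ε := by
      have : ε / 5 + ε / 5 + ε / 5 + ε / 5 + ε / 5 = 5 * (ε / 5) := by ring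
      rw [this]
      exact ENNReal.mul_div_cancel (by norm_num) (by norm_num)
    calc cost γ4 ≤ cost γ3 + ε / 5 := c4
      _ ≤ cost γ2 + ε / 5 + ε / 5 := by gcongr
      _ ≤ cost γ1 + ε / 5 + ε / 5 + ε / 5 := by gcongr
      _ ≤ cost T + ε / 5 + ε / 5 + ε / 5 + ε / 5 := by gcongr
      _ ≤ ε / 5 + ε / 5 + ε / 5 + ε / 5 + ε / 5 := by gcongr
      _ = ε := hsum
  · intro x a1 a2 b1 b2 hz1 hz2
    set a := x (e 0) with ha
    set b := x (e 1) with hb
    set z := x (e 3) with hz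
    have hx : x = pt e x a b z := (pt_self e he x).symm
    obtain ⟨⟨p1, p2⟩, p3⟩ := hHiB b b1 b2
    obtain ⟨⟨q1, q2⟩, q3⟩ := hHiA a a1 a2
    set b' := 1 / 2 - lam + 4 * lam * (b - (1 + iB) / 6) with hb'
    set a' := 1 / 2 - lam + 4 * lam * (a - (1 + iA) / 6) with ha'
    -- E4⁻¹
    have t4 : E4.symm (pt e x a b z) = pt e x a b' z := by
      rw [Equiv.symm_apply_eq, E44 x a b' z a1 a2 (hz2.trans w4) (hz1.trans w4), p3]
    have t3 : E3.symm (pt e x a b' z) = pt e x a' b' z := by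
      rw [Equiv.symm_apply_eq, E34 x a' b' z p1 p2 (hz2.trans w3) (hz1.trans w3), q3]
    have tT : T (pt e x a' b' z) = pt e x a' b' (z + 1 / 3) := by
      rw [T4 x a' b' z (abs_le.2 ⟨by linarith, by linarith⟩) (abs_le.2 ⟨by linarith, by linarith⟩)
        (hz1.trans w0)]
      rw [abs_le] at hz2
      rw [hHT z ⟨by linarith [hz2.1], by linarith [hz2.2]⟩]
      congr 1
      ring
    have hz3 : |z + 1 / 3 - 2 / 3| ≤ ω := by
      rw [show z + 1 / 3 - 2 / 3 = z - 1 / 3 by ring]; exact hz2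
    obtain ⟨-, r3⟩ := hHjA (a + (jA - iA) / 6) (by linarith) (by linarith)
    have ea : 1 / 2 - lam + 4 * lam * (a + (jA - iA) / 6 - (1 + jA) / 6) = a' := by
      rw [ha']; ring
    rw [ea] at r3
    have t1 : E1 (pt e x a' b' (z + 1 / 3)) = pt e x (a + (jA - iA) / 6) b' (z + 1 / 3) := by
      rw [E14 x a' b' (z + 1 / 3) p1 p2 (hz3.trans w1) (hz1.trans w1), r3]
    obtain ⟨-, s3⟩ := hHjB (b + (jB - iB) / 6) (by linarith) (by linarith)
    have eb : 1 / 2 - lam + 4 * lam * (b + (jB - iB) / 6 - (1 + jB) / 6) = b' := by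
      rw [hb']; ring
    rw [eb] at s3
    have t2 : E2 (pt e x (a + (jA - iA) / 6) b' (z + 1 / 3)) =
        pt e x (a + (jA - iA) / 6) (b + (jB - iB) / 6) (z + 1 / 3) := by
      rw [E24 x (a + (jA - iA) / 6) b' (z + 1 / 3) (by linarith) (by linarith)
        (hz3.trans w2) (hz1.trans w2), s3]
    have : γ4 x = E2 (E1 (T (E3.symm (E4.symm x)))) := rfl
    rw [this]
    conv_lhs => rw [hx]
    rw [t4, t3, tT, t1, t2]

end Pool.Agent.H25.GM
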