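import Mathlib
import Pool.Agent.H25.GM.Child

set_option autoImplicit false
set_option linter.unusedSectionVars false
set_option linter.unusedVariables false
set_option linter.deprecated false

open MeasureTheory MeasureTheory.Measure Set
open scoped ENNReal NNReal

namespace Pool.Agent.H25.GM

variable {ι : Type} [Fintype ι] [DecidableEq ι]

variable (e : Fin 4 → ι) (he : Function.Injective e)

/-- a vector with given active coordinates, the passive ones being `p` -/
noncomputable def vec (w : Fin 4 → ℝ) (p : ℝ) : ι → ℝ := Function.extend e w (fun _ => p)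

include he in
lemma vec_act (w : Fin 4 → ℝ) (p : ℝ) (a : Fin 4) : vec e w p (e a) = w a :=
  he.extend_apply _ _ _

lemma vec_pas (w : Fin 4 → ℝ) (p : ℝ) {k : ι} (hk : k ∉ range e) : vec e w p k = p :=
  Function.extend_apply' _ _ _ (by simpa using hk)

/-- the digits: positions of the plate and of its image -/
abbrev Dig : Type := Fin 2 × Fin 2 × Fin 2 × Fin 2

/-- a digit as a real number -/
def dg (i : Fin 2) : ℝ := (i.val : ℝ)

lemma dg_mem (i : Fin 2) : 0 ≤ dg i ∧ dg i ≤ 1 := by
  fin_cases i <;> simp [dg]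

/-- numbering of the digits -/
def num (k : Dig) : ℕ := 8 * k.1.val + 4 * k.2.1.val + 2 * k.2.2.1.val + k.2.2.2.val

lemma num_lt (k : Dig) : num k < 16 := by
  obtain ⟨a, b, c, d⟩ := k
  unfold num
  simp only
  omega

lemma num_inj : Function.Injective num := by
  rintro ⟨a, b, c, d⟩ ⟨a', b', c', d'⟩ h
  unfold num at h
  simp only at h
  simp only [Prod.mk.injEq, Fin.ext_iff]
  omega

/-- centre of the slab -/
noncomputable def tau (k : Dig) : ℝ := (2 * (num k : ℝ) + 1) / 32

lemma tau_pos (k : Dig) : 1 / 32 ≤ tau k := by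
  unfold tau
  have : (0:ℝ) ≤ num k := Nat.cast_nonneg _
  linarith

lemma tau_lt (k : Dig) : tau k ≤ 31 / 32 := by
  unfold tau
  have : (num k : ℝ) ≤ 15 := by
    have := num_lt k
    exact_mod_cast (by omega : num k ≤ 15)
  linarith

lemma tau_sep {k k' : Dig} (h : k ≠ k') : 1 / 16 ≤ |tau k - tau k'| := by
  have hn : num k ≠ num k' := fun h' => h (num_inj h')
  have : tau k - tau k' = ((num k : ℝ) - num k') / 16 := by unfold tau; ring
  rw [this, abs_div, abs_of_pos (by norm_num : (0:ℝ) < 16)]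
  have h1 : (1 : ℝ) ≤ |(num k : ℝ) - num k'| := by
    rcases lt_or_gt_of_ne hn with h2 | h2
    · have : (num k : ℝ) + 1 ≤ num k' := by exact_mod_cast h2
      rw [abs_sub_comm]
      exact le_trans (by linarith) (le_abs_self _)
    · have : (num k' : ℝ) + 1 ≤ num k := by exact_mod_cast h2
      exact le_trans (by linarith) (le_abs_self _)
  linarith

/-- translation vector of the child -/
noncomputable def vv (k : Dig) : ι → ℝ :=
  vec e ![(dg k.2.2.1 - dg k.1) / 6, (dg k.2.2.2 - dg k.2.1) / 6, 0, 1 / 3] 0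

/-- corner of the child plate -/
noncomputable def oo (k : Dig) (s : ℝ) : ι → ℝ :=
  vec e ![(1 + dg k.1) / 6, (1 + dg k.2.1) / 6, tau k - s / 2, 1 / 3 - s / 2] 0

/-- sizes of the child plate -/
noncomputable def dd (s : ℝ) : ι → ℝ := vec e ![1 / 2, 1 / 2, s, s] 1

/-- the condition defining the neighbourhood of the plate -/
def Near (k : Dig) (ω : ℝ) (x : ι → ℝ) : Prop :=
  (1 + dg k.1) / 6 ≤ x (e 0) ∧ x (e 0) ≤ (4 + dg k.1) / 6 ∧ (1 + dg k.2.1) / 6 ≤ x (e 1) ∧
    x (e 1) ≤ (4 + dg k.2.1) / 6 ∧ |x (e 2) - tau k| ≤ ω ∧ |x (e 3) - 1 / 3| ≤ ω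

include he in
lemma fam (S : Finset Dig) : ∀ ε : ℝ≥0∞, 0 < ε → ∃ (ω : ℝ) (γ : (ι → ℝ) ≃ (ι → ℝ)), 0 < ω ∧
    ω < 1 / 32 ∧ Good e γ ∧ cost γ ≤ ε ∧
    (∀ x : ι → ℝ, (∀ k ∈ S, 1 / 32 ≤ |x (e 2) - tau k|) → γ x = x) ∧
    ∀ k ∈ S, ∀ x : ι → ℝ, Near e k ω x → γ x = x + vv e k := by
  induction S using Finset.induction_on with
  | empty =>
    intro ε hε
    refine ⟨1 / 64, Equiv.refl _, by norm_num, by norm_num, Good.refl e, ?_, fun x _ => rfl, ?_⟩
    · rw [cost_refl]; exact zero_le
    · intro k hk; simp at hk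
  | insert k S hk ih =>
    intro ε hε
    have hε2 : 0 < ε / 2 := ENNReal.div_pos hε.ne' (by norm_num)
    obtain ⟨ω, γ, hω, hω32, hG, hc, hfix, htr⟩ := ih (ε / 2) hε2
    obtain ⟨κ, hκ, K⟩ := soft_post hG.bl hG.pq hε2
    obtain ⟨ω', g, hω', gG, gS, gc, gtr⟩ := child e he (dg_mem k.1) (dg_mem k.2.1)
      (dg_mem k.2.2.1) (dg_mem k.2.2.2) (κ := 1 / 32) (by norm_num)
      (lt_of_lt_of_le (by norm_num) (tau_pos k))
      (lt_of_le_of_lt (tau_lt k) (by norm_num)) hκ
    refine ⟨min ω ω', γ.trans g, lt_min hω hω', (min_le_left _ _).trans_lt hω32, hG.trans gG,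
      ?_, ?_, ?_⟩
    · calc cost (γ.trans g) ≤ cost γ + ε / 2 := K g gc
        _ ≤ ε / 2 + ε / 2 := by gcongr
        _ = ε := ENNReal.add_halves ε
    · intro x hx
      have h1 : γ x = x := hfix x fun k' hk' => hx k' (Finset.mem_insert_of_mem hk')
      rw [Equiv.trans_apply, h1]
      exact gS x (hx k (Finset.mem_insert_self _ _))
    · intro k' hk' x hx
      obtain ⟨n0, n1, n2, n3, n4, n5⟩ := hx
      have hfar : ∀ k'', k'' ≠ k' → 1 / 32 ≤ |x (e 2) - tau k''| := by
        intro k'' hne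
        have h1 := tau_sep hne
        have h2 : |x (e 2) - tau k'| < 1 / 32 := lt_of_le_of_lt (n4.trans (min_le_left _ _)) hω32
        rw [abs_lt] at h2
        rcases le_total 0 (tau k'' - tau k') with h3 | h3
        · rw [abs_of_nonneg h3] at h1
          rw [abs_sub_comm]
          exact le_trans (by linarith) (le_abs_self _)
        · rw [abs_of_nonpos h3] at h1
          exact le_trans (by linarith) (le_abs_self _)
      rcases Finset.mem_insert.1 hk' with rfl | hk''
      · have h1 : γ x = x := hfix x fun k' hk' => hfar k' (fun h => hk (h ▸ hk'))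
        rw [Equiv.trans_apply, h1, gtr x n0 n1 n2 n3 (n4.trans (min_le_right _ _))
          (n5.trans (min_le_right _ _))]
        refine ext4 e (fun c => ?_) (fun i hi => ?_)
        · rw [Pi.add_apply]
          unfold vv
          rw [vec_act e he]
          fin_cases c
          · simp [pt_0 e he]
          · simp [pt_1 e he]
          · simp [pt_2 e he]
          · simp [pt_3 e]
        · rw [Pi.add_apply]
          unfold vv
          rw [vec_pas e _ _ hi, pt_p e _ _ _ _ hi, add_zero]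
      · have hkk : k ≠ k' := fun h => hk (h ▸ hk'')
        rw [Equiv.trans_apply, htr k' hk'' x ⟨n0, n1, n2, n3, n4.trans (min_le_left _ _),
          n5.trans (min_le_left _ _)⟩]
        apply gS
        rw [Pi.add_apply]
        unfold vv
        rw [vec_act e he]
        simp only [Matrix.cons_val, add_zero]
        exact hfar k hkk

include he in
/-- The model: cheap maps translating sixteen plates. -/
lemma model {s₀ : ℝ} (hs₀ : 0 < s₀) {ε : ℝ≥0∞} (hε : 0 < ε) :
    ∃ (s : ℝ) (γ : (ι → ℝ) ≃ (ι → ℝ)), 0 < s ∧ s ≤ s₀ ∧ s < 1 / 32 ∧ Good e γ ∧ cost γ ≤ ε ∧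
      ∀ (k : Dig) (y : ι → ℝ), (∀ a, 0 ≤ y (e a) ∧ y (e a) ≤ 1) →
        γ (oo e k s + dd e s * y) = oo e k s + dd e s * y + vv e k := by
  obtain ⟨ω, γ, hω, hω32, hG, hc, -, htr⟩ := fam e he Finset.univ ε hε
  have hs : 0 < min s₀ ω := lt_min hs₀ hω
  refine ⟨min s₀ ω, γ, hs, min_le_left _ _, (min_le_right _ _).trans_lt hω32, hG, hc, ?_⟩
  intro k y hy
  apply htr k (Finset.mem_univ _)
  have hsω : min s₀ ω ≤ ω := min_le_right _ _
  set s := min s₀ ω with hs'
  have h0 := hy 0
  have h1 := hy 1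
  have h2 := hy 2
  have h3 := hy 3
  have m2 : 0 ≤ s * y (e 2) := mul_nonneg hs.le h2.1
  have m2' : s * y (e 2) ≤ s := by nlinarith
  have m3 : 0 ≤ s * y (e 3) := mul_nonneg hs.le h3.1
  have m3' : s * y (e 3) ≤ s := by nlinarith
  unfold Near oo dd
  simp only [Pi.add_apply, Pi.mul_apply, vec_act e he, Matrix.cons_val]
  refine ⟨by linarith, by linarith, by linarith, by linarith, ?_, ?_⟩
  · rw [abs_le]; constructor <;> linarith
  · rw [abs_le]; constructor <;> linarith

end Pool.Agent.H25.GM
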