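import Mathlib
import Pool.Agent.H25.GM.Family

set_option autoImplicit false
set_option linter.unusedSectionVars false
set_option linter.unusedVariables false
set_option linter.deprecated false

open MeasureTheory MeasureTheory.Measure Set
open scoped ENNReal NNReal

namespace Pool.Agent.H25.GM

variable {ι : Type} [Fintype ι] [DecidableEq ι]

variable (e : Fin 4 → ι) (he : Function.Injective e)

/-- the affine bijection `y ↦ c + δ y` -/
noncomputable def aff (c δ : ι → ℝ) (hδ : ∀ k, 0 < δ k) : (ι → ℝ) ≃ (ι → ℝ) where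
  toFun y := c + δ * y
  invFun x := fun k => (x k - c k) / δ k
  left_inv y := by
    funext k
    have := (hδ k).ne'
    simp only [Pi.add_apply, Pi.mul_apply]
    field_simp; ring
  right_inv x := by
    funext k
    have := (hδ k).ne'
    simp only [Pi.add_apply, Pi.mul_apply]
    field_simp; ring

@[simp] lemma aff_apply (c δ : ι → ℝ) (hδ : ∀ k, 0 < δ k) (y : ι → ℝ) :
    aff c δ hδ y = c + δ * y := rfl

lemma aff_symm_apply (c δ : ι → ℝ) (hδ : ∀ k, 0 < δ k) (x : ι → ℝ) (k : ι) :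
    (aff c δ hδ).symm x k = (x k - c k) / δ k := rfl

lemma aff_lip {c δ : ι → ℝ} (hδ : ∀ k, 0 < δ k) (hδ1 : ∀ k, δ k ≤ 1) :
    LipschitzWith 1 (aff c δ hδ) := by
  refine LipschitzWith.of_dist_le_mul fun x y => ?_
  rw [NNReal.coe_one, one_mul, dist_pi_le_iff dist_nonneg]
  intro k
  simp only [aff_apply, Pi.add_apply, Pi.mul_apply]
  rw [Real.dist_eq]
  have : c k + δ k * x k - (c k + δ k * y k) = δ k * (x k - y k) := by ring
  rw [this, abs_mul, abs_of_pos (hδ k)]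
  have h1 : |x k - y k| ≤ dist x y := by rw [← Real.dist_eq]; exact dist_le_pi_dist _ _ k
  have h2 := abs_nonneg (x k - y k)
  nlinarith [hδ k, hδ1 k]

lemma aff_symm_lip {c δ : ι → ℝ} (hδ : ∀ k, 0 < δ k) :
    ∃ K : ℝ≥0, LipschitzWith K (aff c δ hδ).symm := by
  have hs : ∀ k, 0 ≤ 1 / δ k := fun k => (one_div_pos.2 (hδ k)).le
  refine ⟨Real.toNNReal (∑ k, 1 / δ k), ?_⟩
  refine LipschitzWith.of_dist_le_mul fun x y => ?_
  have hsum : 0 ≤ ∑ k, 1 / δ k := Finset.sum_nonneg fun k _ => hs k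
  rw [Real.coe_toNNReal _ hsum, dist_pi_le_iff (mul_nonneg hsum dist_nonneg)]
  intro k
  rw [Real.dist_eq, aff_symm_apply, aff_symm_apply]
  have : (x k - c k) / δ k - (y k - c k) / δ k = 1 / δ k * (x k - y k) := by ring
  rw [this, abs_mul, abs_of_nonneg (hs k)]
  have h1 : |x k - y k| ≤ dist x y := by rw [← Real.dist_eq]; exact dist_le_pi_dist _ _ k
  have h2 : 1 / δ k ≤ ∑ k, 1 / δ k := Finset.single_le_sum (fun k _ => hs k) (Finset.mem_univ k)
  exact mul_le_mul h2 h1 (abs_nonneg _) hsum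

/-- The box with corner `c` and sizes `δ` (in the active coordinates). -/
def Box (c δ : ι → ℝ) : Set (ι → ℝ) := {x | ∀ a, c (e a) ≤ x (e a) ∧ x (e a) ≤ c (e a) + δ (e a)}

/-- sizes: positive, at most one, one in passive directions -/
structure Siz (δ : ι → ℝ) : Prop where
  pos : ∀ k, 0 < δ k
  le1 : ∀ k, δ k ≤ 1
  pas : ∀ k, k ∉ range e → δ k = 1

/-- corners: zero in passive directions, box inside the cube -/
structure Cor (δ c : ι → ℝ) : Prop where
  pas : ∀ k, k ∉ range e → c k = 0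
  lo : ∀ a, 0 ≤ c (e a)
  hi : ∀ a, c (e a) + δ (e a) ≤ 1

variable {e}

lemma mem_Box_iff {c δ : ι → ℝ} (hδ : ∀ k, 0 < δ k) (x : ι → ℝ) :
    x ∈ Box e c δ ↔ ∀ a, 0 ≤ (aff c δ hδ).symm x (e a) ∧ (aff c δ hδ).symm x (e a) ≤ 1 := by
  unfold Box
  rw [mem_setOf_eq]
  refine forall_congr' fun a => ?_
  rw [aff_symm_apply, div_le_one (hδ _), le_div_iff₀ (hδ _), zero_mul]
  constructor
  · rintro ⟨h1, h2⟩; constructor <;> linarith
  · rintro ⟨h1, h2⟩; constructor <;> linarith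

lemma mem_Box_aff {c δ : ι → ℝ} (hδ : ∀ k, 0 < δ k) {y : ι → ℝ}
    (hy : ∀ a, 0 ≤ y (e a) ∧ y (e a) ≤ 1) : c + δ * y ∈ Box e c δ := by
  rw [mem_Box_iff hδ]
  have : (aff c δ hδ).symm (c + δ * y) = y := by
    rw [Equiv.symm_apply_eq]; rfl
  rw [this]; exact hy

/-- the cube in the active coordinates is preserved by admissible maps -/
lemma Good.act {γ : (ι → ℝ) ≃ (ι → ℝ)} (h : Good e γ) {y : ι → ℝ}
    (hy : ∀ a, 0 ≤ y (e a) ∧ y (e a) ≤ 1) (a : Fin 4) : 0 ≤ γ y (e a) ∧ γ y (e a) ≤ 1 := by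
  by_contra hcon
  have h1 : γ y (e a) < 0 ∨ 1 < γ y (e a) := by
    by_contra h2
    push Not at h2
    exact hcon h2
  have h2 : γ (γ y) = γ y := by
    apply h.supp
    refine ⟨a, ?_⟩
    rcases h1 with h1 | h1
    · exact Or.inl h1.le
    · exact Or.inr h1.le
  have h3 : γ y = y := γ.injective h2
  rw [h3] at hcon
  exact hcon (hy a)

/-- the conjugate of an admissible map -/
noncomputable def conj (c δ : ι → ℝ) (hδ : ∀ k, 0 < δ k) (γ : (ι → ℝ) ≃ (ι → ℝ)) :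
    (ι → ℝ) ≃ (ι → ℝ) := (aff c δ hδ).symm.trans (γ.trans (aff c δ hδ))

lemma conj_apply {c δ : ι → ℝ} (hδ : ∀ k, 0 < δ k) (γ : (ι → ℝ) ≃ (ι → ℝ)) (y : ι → ℝ) :
    conj c δ hδ γ (c + δ * y) = c + δ * γ y := by
  unfold conj
  simp only [Equiv.trans_apply]
  have : (aff c δ hδ).symm (c + δ * y) = y := by
    rw [Equiv.symm_apply_eq]; rfl
  rw [this]; rfl

lemma conj_symm (c δ : ι → ℝ) (hδ : ∀ k, 0 < δ k) (γ : (ι → ℝ) ≃ (ι → ℝ)) :
    (conj c δ hδ γ).symm = conj c δ hδ γ.symm := rfl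

lemma conj_apply' {c δ : ι → ℝ} (hδ : ∀ k, 0 < δ k) (γ : (ι → ℝ) ≃ (ι → ℝ)) (x : ι → ℝ) :
    conj c δ hδ γ x = c + δ * γ ((aff c δ hδ).symm x) := rfl

lemma aff_symm_spec {c δ : ι → ℝ} (hδ : ∀ k, 0 < δ k) (x : ι → ℝ) :
    c + δ * (aff c δ hδ).symm x = x := by
  have := (aff c δ hδ).apply_symm_apply x
  exact this

/-- outside the box the conjugate is the identity -/
lemma conj_fix {c δ : ι → ℝ} (hδ : ∀ k, 0 < δ k) {γ : (ι → ℝ) ≃ (ι → ℝ)} (h : Good e γ)
    {x : ι → ℝ} (hx : x ∉ Box e c δ) : conj c δ hδ γ x = x := by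
  rw [mem_Box_iff hδ] at hx
  push Not at hx
  obtain ⟨a, ha⟩ := hx
  rw [conj_apply', h.supp, aff_symm_spec]
  refine ⟨a, ?_⟩
  rcases le_or_gt ((aff c δ hδ).symm x (e a)) 0 with h1 | h1
  · exact Or.inl h1
  · exact Or.inr (ha h1.le).le

lemma conj_mem {c δ : ι → ℝ} (hδ : ∀ k, 0 < δ k) {γ : (ι → ℝ) ≃ (ι → ℝ)} (h : Good e γ)
    {x : ι → ℝ} (hx : x ∈ Box e c δ) : conj c δ hδ γ x ∈ Box e c δ := by
  rw [conj_apply']
  exact mem_Box_aff hδ fun a => h.act ((mem_Box_iff hδ x).1 hx) a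

lemma conj_biLip {c δ : ι → ℝ} (hδ : Siz e δ) {γ : (ι → ℝ) ≃ (ι → ℝ)} (h : BiLip γ) :
    BiLip (conj c δ hδ.pos γ) := by
  have h1 : BiLip (aff c δ hδ.pos) := ⟨⟨1, aff_lip hδ.pos hδ.le1⟩, aff_symm_lip hδ.pos⟩
  exact h1.symm.trans (h.trans h1)

lemma aff_symm_pas {c δ : ι → ℝ} (hδ : Siz e δ) (hc : Cor e δ c) (x : ι → ℝ) {k : ι}
    (hk : k ∉ range e) : (aff c δ hδ.pos).symm x k = x k := by
  rw [aff_symm_apply, hδ.pas k hk, hc.pas k hk]; ring

lemma conj_pas {c δ : ι → ℝ} (hδ : Siz e δ) (hc : Cor e δ c) {γ : (ι → ℝ) ≃ (ι → ℝ)}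
    (h : Good e γ) (x : ι → ℝ) {k : ι} (hk : k ∉ range e) : conj c δ hδ.pos γ x k = x k := by
  rw [conj_apply', Pi.add_apply, Pi.mul_apply, h.pas _ k hk, aff_symm_pas hδ hc x hk,
    hδ.pas k hk, hc.pas k hk]
  ring

lemma conj_Q {c δ : ι → ℝ} (hδ : Siz e δ) (hc : Cor e δ c) {γ : (ι → ℝ) ≃ (ι → ℝ)}
    (h : Good e γ) {x : ι → ℝ} (hx : x ∈ Q ι) : conj c δ hδ.pos γ x ∈ Q ι := by
  by_cases hxB : x ∈ Box e c δ
  · have h1 := conj_mem hδ.pos h hxB
    constructor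
    · intro k
      by_cases hk : k ∈ range e
      · obtain ⟨a, rfl⟩ := hk
        have := (h1 a).1
        have := hc.lo a
        simp only [Pi.zero_apply]
        linarith
      · rw [conj_pas hδ hc h x hk]; exact hx.1 k
    · intro k
      by_cases hk : k ∈ range e
      · obtain ⟨a, rfl⟩ := hk
        have := (h1 a).2
        have := hc.hi a
        simp only [Pi.one_apply]
        linarith
      · rw [conj_pas hδ hc h x hk]; exact hx.2 k
  · rw [conj_fix hδ.pos h hxB]; exact hx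

lemma conj_presQ {c δ : ι → ℝ} (hδ : Siz e δ) (hc : Cor e δ c) {γ : (ι → ℝ) ≃ (ι → ℝ)}
    (h : Good e γ) : PresQ (conj c δ hδ.pos γ) := by
  intro x
  refine ⟨fun hx => ?_, fun hx => conj_Q hδ hc h hx⟩
  have := conj_Q hδ hc h.symm hx
  rw [← conj_symm] at this
  simpa using this

lemma conj_cost {c δ : ι → ℝ} (hδ : Siz e δ) (hc : Cor e δ c) {γ : (ι → ℝ) ≃ (ι → ℝ)}
    (h : Good e γ) : cost (conj c δ hδ.pos γ) ≤ cost γ := by
  have hsub : off (conj c δ hδ.pos γ) ⊆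
      Prod.map (aff c δ hδ.pos) (aff c δ hδ.pos) '' off γ := by
    rintro ⟨x, y⟩ ⟨h1, h2, h3⟩
    simp only at h1 h2 h3
    have hxB : x ∈ Box e c δ := by
      by_contra hn
      exact h3 (h2.trans (conj_fix hδ.pos h hn))
    refine ⟨((aff c δ hδ.pos).symm x, γ ((aff c δ hδ.pos).symm x)), ⟨?_, rfl, ?_⟩, ?_⟩
    · constructor
      · intro k
        by_cases hk : k ∈ range e
        · obtain ⟨a, rfl⟩ := hk
          exact ((mem_Box_iff hδ.pos x).1 hxB a).1
        · show 0 ≤ (aff c δ hδ.pos).symm x k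
          rw [aff_symm_pas hδ hc x hk]; exact h1.1 k
      · intro k
        by_cases hk : k ∈ range e
        · obtain ⟨a, rfl⟩ := hk
          exact ((mem_Box_iff hδ.pos x).1 hxB a).2
        · show (aff c δ hδ.pos).symm x k ≤ 1
          rw [aff_symm_pas hδ hc x hk]; exact h1.2 k
    · intro heq
      apply h3
      rw [h2, conj_apply']
      simp only at heq
      rw [heq, aff_symm_spec]
    · rw [h2, Prod.map_apply, Equiv.apply_symm_apply]
      rfl
  have hL : LipschitzWith 1 (Prod.map (aff c δ hδ.pos) (aff c δ hδ.pos)) := by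
    have := aff_lip (c := c) hδ.pos hδ.le1
    refine LipschitzWith.of_dist_le_mul fun p q => ?_
    rw [NNReal.coe_one, one_mul, Prod.dist_eq, Prod.dist_eq]
    have h1 := this.dist_le_mul p.1 q.1
    have h2 := this.dist_le_mul p.2 q.2
    rw [NNReal.coe_one, one_mul] at h1 h2
    exact max_le_max h1 h2
  calc cost (conj c δ hδ.pos γ) ≤ μH[(Fintype.card ι : ℝ)] _ := measure_mono hsub
    _ ≤ ((1 : ℝ≥0) : ℝ≥0∞) ^ (Fintype.card ι : ℝ) * μH[(Fintype.card ι : ℝ)] (off γ) :=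
        hL.hausdorffMeasure_image_le (by positivity) _
    _ = cost γ := by simp [cost]

/-- Gluing of conjugates in disjoint boxes. -/
lemma glue {δ : ι → ℝ} (hδ : Siz e δ) {γ : (ι → ℝ) ≃ (ι → ℝ)} (h : Good e γ)
    (W : Finset (ι → ℝ)) : (∀ c ∈ W, Cor e δ c) →
    (∀ c ∈ W, ∀ c' ∈ W, c ≠ c' → Disjoint (Box e c δ) (Box e c' δ)) →
    ∃ Γ : (ι → ℝ) ≃ (ι → ℝ), BiLip Γ ∧ PresQ Γ ∧ (∀ x k, k ∉ range e → Γ x k = x k) ∧
      cost Γ ≤ (W.card : ℝ≥0∞) * cost γ ∧
      (∀ c ∈ W, ∀ y : ι → ℝ, (∀ a, 0 ≤ y (e a) ∧ y (e a) ≤ 1) → Γ (c + δ * y) = c + δ * γ y) ∧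
      (∀ x, (∀ c ∈ W, x ∉ Box e c δ) → Γ x = x) := by
  induction W using Finset.induction_on with
  | empty =>
    intro _ _
    refine ⟨Equiv.refl _, BiLip.refl, PresQ.refl, fun _ _ _ => rfl, ?_, ?_, fun _ _ => rfl⟩
    · rw [cost_refl]; exact zero_le
    · intro c hc; simp at hc
  | insert c S hc ih =>
    intro hcor hdis
    obtain ⟨Γ, b1, b2, b3, b4, b5, b6⟩ := ih (fun c' hc' => hcor c' (Finset.mem_insert_of_mem hc'))
      (fun c' hc' c'' hc'' hne => hdis c' (Finset.mem_insert_of_mem hc') c''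
        (Finset.mem_insert_of_mem hc'') hne)
    have hcc := hcor c (Finset.mem_insert_self _ _)
    have hcS : ∀ c' ∈ S, Disjoint (Box e c δ) (Box e c' δ) := fun c' hc' =>
      hdis c (Finset.mem_insert_self _ _) c' (Finset.mem_insert_of_mem hc') (fun h => hc (h ▸ hc'))
    have hG1 : ∀ x, x ∈ Box e c δ → Γ x = x := fun x hx =>
      b6 x fun c' hc' hx' => (Set.disjoint_left.1 (hcS c' hc')) hx hx'
    have hG2 : ∀ x, x ∉ Box e c δ → conj c δ hδ.pos γ (Γ x) = Γ x := by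
      intro x hx
      apply conj_fix hδ.pos h
      intro hx'
      exact hx (by
        have h1 := hG1 (Γ x) hx'
        have h2 := Γ.injective h1
        rwa [h2] at hx')
    refine ⟨Γ.trans (conj c δ hδ.pos γ), b1.trans (conj_biLip hδ h.bl),
      b2.trans (conj_presQ hδ hcc h), ?_, ?_, ?_, ?_⟩
    · intro x k hk
      rw [Equiv.trans_apply, conj_pas hδ hcc h _ hk, b3 x k hk]
    · have hsub : off (Γ.trans (conj c δ hδ.pos γ)) ⊆ off Γ ∪ off (conj c δ hδ.pos γ) := by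
        rintro ⟨x, y⟩ ⟨h1, h2, h3⟩
        simp only [Equiv.trans_apply] at h1 h2 h3
        by_cases hx : x ∈ Box e c δ
        · right
          refine ⟨h1, ?_, h3⟩
          show y = conj c δ hδ.pos γ x
          rw [h2, hG1 x hx]
        · left
          refine ⟨h1, ?_, h3⟩
          show y = Γ x
          rw [h2, hG2 x hx]
      have h4 : cost (Γ.trans (conj c δ hδ.pos γ)) ≤ cost Γ + cost (conj c δ hδ.pos γ) :=
        (measure_mono hsub).trans (measure_union_le _ _)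
      refine h4.trans ?_
      rw [Finset.card_insert_of_notMem hc]
      push_cast
      rw [add_mul, one_mul]
      exact add_le_add b4 (conj_cost hδ hcc h)
    · intro c' hc' y hy
      rcases Finset.mem_insert.1 hc' with rfl | hc'
      · rw [Equiv.trans_apply, hG1 _ (mem_Box_aff hδ.pos hy), conj_apply]
      · have hin : c' + δ * y ∉ Box e c δ := fun hx =>
          (Set.disjoint_left.1 (hcS c' hc')) hx (mem_Box_aff hδ.pos hy)
        rw [Equiv.trans_apply, hG2 _ hin, b5 c' hc' y hy]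
    · intro x hx
      rw [Equiv.trans_apply, hG2 x (hx c (Finset.mem_insert_self _ _)),
        b6 x fun c' hc' => hx c' (Finset.mem_insert_of_mem hc')]

end Pool.Agent.H25.GM
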