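import Mathlib
import Pool.Agent.H25.GM.Glue

set_option autoImplicit false
set_option linter.unusedSectionVars false
set_option linter.unusedVariables false
set_option linter.deprecated false

open MeasureTheory MeasureTheory.Measure Set
open scoped ENNReal NNReal

namespace Pool.Agent.H25.GM

variable {ι : Type} [Fintype ι] [DecidableEq ι]

variable (e : Fin 4 → ι) (he : Function.Injective e)

/-- sizes of the plates of stage `n` -/
noncomputable def sz (n : ℕ) (σ : ℝ) : ι → ℝ := vec e ![(1 / 2) ^ n, (1 / 2) ^ n, σ, σ] 1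

include he in
lemma sz_siz {n : ℕ} {σ : ℝ} (h0 : 0 < σ) (h1 : σ ≤ (1 / 2) ^ n) : Siz e (sz e n σ) := by
  have hp : (0:ℝ) < (1 / 2) ^ n := by positivity
  have hp1 : ((1:ℝ) / 2) ^ n ≤ 1 := pow_le_one₀ (by norm_num) (by norm_num)
  refine ⟨fun k => ?_, fun k => ?_, fun k hk => vec_pas e _ _ hk⟩
  · by_cases hk : k ∈ range e
    · obtain ⟨a, rfl⟩ := hk
      unfold sz; rw [vec_act e he]
      fin_cases a <;> simp [h0]
    · unfold sz; rw [vec_pas e _ _ hk]; exact one_pos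
  · by_cases hk : k ∈ range e
    · obtain ⟨a, rfl⟩ := hk
      unfold sz; rw [vec_act e he]
      fin_cases a
      · simpa using hp1
      · simpa using hp1
      · simpa using h1.trans hp1
      · simpa using h1.trans hp1
    · unfold sz; rw [vec_pas e _ _ hk]

include he in
lemma sz_le {n : ℕ} {σ : ℝ} (h1 : σ ≤ (1 / 2) ^ n) (a : Fin 4) : sz e n σ (e a) ≤ (1 / 2) ^ n := by
  unfold sz; rw [vec_act e he]
  fin_cases a
  · simp
  · simp
  · simpa using h1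
  · simpa using h1

include he in
lemma sz_succ (n : ℕ) (σ s : ℝ) : sz e (n + 1) (σ * s) = sz e n σ * dd e s := by
  refine ext4 e (fun a => ?_) (fun k hk => ?_)
  · unfold sz dd
    rw [Pi.mul_apply, vec_act e he, vec_act e he, vec_act e he]
    fin_cases a
    · simp; ring
    · simp; ring
    · simp
    · simp
  · unfold sz dd
    rw [Pi.mul_apply, vec_pas e _ _ hk, vec_pas e _ _ hk, vec_pas e _ _ hk, mul_one]

/-- The stages of the construction. -/
structure Stage (n : ℕ) (f : (ι → ℝ) ≃ (ι → ℝ)) (σ : ℝ) (W : Finset ((ι → ℝ) × (ι → ℝ))) :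
    Prop where
  bl : BiLip f
  pq : PresQ f
  pas : ∀ x k, k ∉ range e → f x k = x k
  s0 : 0 < σ
  s1 : σ ≤ (1 / 2) ^ n
  cor : ∀ w ∈ W, Cor e (sz e n σ) w.1
  vpas : ∀ w ∈ W, ∀ k, k ∉ range e → w.2 k = 0
  dis : ∀ w ∈ W, ∀ w' ∈ W, w ≠ w' → Disjoint (Box e w.1 (sz e n σ)) (Box e w'.1 (sz e n σ))
  tr : ∀ w ∈ W, ∀ x ∈ Box e w.1 (sz e n σ), f x = x + w.2
  cov : ∀ q : Fin 4 → ℝ, (∀ a, 1 / 3 ≤ q a ∧ q a ≤ 2 / 3) → ∃ w ∈ W, ∃ t : Fin 4 → ℝ,
    (∀ a, 1 / 3 ≤ t a ∧ t a ≤ 2 / 3) ∧ q 0 = w.1 (e 0) + (1 / 2) ^ n * t 0 ∧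
    q 1 = w.1 (e 1) + (1 / 2) ^ n * t 1 ∧ q 2 = w.1 (e 0) + w.2 (e 0) + (1 / 2) ^ n * t 2 ∧
    q 3 = w.1 (e 1) + w.2 (e 1) + (1 / 2) ^ n * t 3
  lh : (n = 0 ∧ σ = 1 ∧ ∀ w ∈ W, w.1 (e 3) = 0 ∧ w.2 (e 3) = 0) ∨
    ∀ w ∈ W, w.1 (e 3) + σ ≤ 5 / 12 ∧ 7 / 12 ≤ w.1 (e 3) + w.2 (e 3)

include he in
lemma Stage.zero : Stage e 0 (Equiv.refl (ι → ℝ)) 1 {(0, 0)} := by
  have hsz : ∀ a, sz e 0 1 (e a) = 1 := by
    intro a; unfold sz; rw [vec_act e he]; fin_cases a <;> simp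
  refine ⟨BiLip.refl, PresQ.refl, fun _ _ _ => rfl, one_pos, by simp, ?_, ?_, ?_, ?_, ?_, ?_⟩
  · intro w hw
    rw [Finset.mem_singleton] at hw
    subst hw
    exact ⟨fun _ _ => rfl, fun _ => le_rfl, fun a => by rw [hsz]; simp⟩
  · intro w hw k hk
    rw [Finset.mem_singleton] at hw
    subst hw; rfl
  · intro w hw w' hw' hne
    rw [Finset.mem_singleton] at hw hw'
    exact absurd (hw.trans hw'.symm) hne
  · intro w hw x _
    rw [Finset.mem_singleton] at hw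
    subst hw
    simp
  · intro q hq
    exact ⟨(0, 0), Finset.mem_singleton_self _, q, hq, by simp, by simp, by simp, by simp⟩
  · left
    refine ⟨rfl, rfl, fun w hw => ?_⟩
    rw [Finset.mem_singleton] at hw
    subst hw; exact ⟨rfl, rfl⟩

include he in
/-- the child plates are in the unit cube, together with their translates -/
lemma child_mem (k : Dig) {s : ℝ} (hs : 0 < s) (hs' : s < 1 / 32) {y : ι → ℝ}
    (hy : ∀ a, 0 ≤ y (e a) ∧ y (e a) ≤ 1) (a : Fin 4) :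
    (0 ≤ (oo e k s + dd e s * y) (e a) ∧ (oo e k s + dd e s * y) (e a) ≤ 1) ∧
    (0 ≤ (oo e k s + dd e s * y + vv e k) (e a) ∧
      (oo e k s + dd e s * y + vv e k) (e a) ≤ 1) := by
  have h0 := hy 0
  have h1 := hy 1
  have h2 := hy 2
  have h3 := hy 3
  have m2 : 0 ≤ s * y (e 2) := mul_nonneg hs.le h2.1
  have m2' : s * y (e 2) ≤ s := by nlinarith
  have m3 : 0 ≤ s * y (e 3) := mul_nonneg hs.le h3.1
  have m3' : s * y (e 3) ≤ s := by nlinarith
  have d1 := dg_mem k.1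
  have d2 := dg_mem k.2.1
  have d3 := dg_mem k.2.2.1
  have d4 := dg_mem k.2.2.2
  have t1 := tau_pos k
  have t2 := tau_lt k
  unfold oo dd vv
  simp only [Pi.add_apply, Pi.mul_apply, vec_act e he]
  fin_cases a
  · simp only [Fin.zero_eta, Matrix.cons_val]
    refine ⟨⟨?_, ?_⟩, ?_, ?_⟩ <;> linarith
  · simp only [Fin.mk_one, Matrix.cons_val]
    refine ⟨⟨?_, ?_⟩, ?_, ?_⟩ <;> linarith
  · simp only [Fin.reduceFinMk, Matrix.cons_val]
    refine ⟨⟨?_, ?_⟩, ?_, ?_⟩ <;> linarith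
  · simp only [Fin.reduceFinMk, Matrix.cons_val]
    refine ⟨⟨?_, ?_⟩, ?_, ?_⟩ <;> linarith

/-- choice of the digit -/
lemma exists_dg {t : ℝ} (h : 1 / 3 ≤ t ∧ t ≤ 2 / 3) : ∃ (i : Fin 2) (r : ℝ),
    (1 / 3 ≤ r ∧ r ≤ 2 / 3) ∧ t = (1 + dg i) / 6 + 1 / 2 * r := by
  rcases le_or_gt t (1 / 2) with h1 | h1
  · refine ⟨0, 2 * (t - 1 / 6), ⟨by linarith, by linarith⟩, ?_⟩
    simp [dg]
  · refine ⟨1, 2 * (t - 1 / 3), ⟨by linarith, by linarith⟩, ?_⟩
    simp [dg]; ring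

include he in
/-- One step of the construction. -/
theorem step {n : ℕ} {f : (ι → ℝ) ≃ (ι → ℝ)} {σ : ℝ} {W : Finset ((ι → ℝ) × (ι → ℝ))}
    (hS : Stage e n f σ W) {ε : ℝ≥0∞} (hε : 0 < ε) :
    ∃ (f' : (ι → ℝ) ≃ (ι → ℝ)) (σ' : ℝ) (W' : Finset ((ι → ℝ) × (ι → ℝ))),
      Stage e (n + 1) f' σ' W' ∧ cost f' ≤ cost f + ε ∧ (∀ x, dist (f' x) (f x) ≤ (1 / 2) ^ n) ∧
      (∀ x, dist (f'.symm x) (f.symm x) ≤ (1 / 2) ^ n) ∧
      (∀ w' ∈ W', ∃ w ∈ W, Box e w'.1 (sz e (n + 1) σ') ⊆ Box e w.1 (sz e n σ)) ∧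
      (∀ x, (∀ w ∈ W, x ∉ Box e w.1 (sz e n σ)) → f' x = f x) := by
  classical
  have hsiz := sz_siz e he hS.s0 hS.s1
  set δ := sz e n σ with hδ
  obtain ⟨κ, hκ, K⟩ := soft_pre hS.bl hε
  set C : Finset (ι → ℝ) := W.image Prod.fst with hC
  have hN : 0 < κ / ((C.card : ℝ≥0∞) + 1) := ENNReal.div_pos hκ.ne' (by
    exact ENNReal.add_ne_top.2 ⟨ENNReal.natCast_ne_top _, ENNReal.one_ne_top⟩)
  obtain ⟨s, γ, hs0, hs1, hs2, hG, hc, htr⟩ := model e he (s₀ := 1 / 2) (by norm_num) hN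
  obtain ⟨Γ, g1, g2, g3, g4, g5, g6⟩ := glue hsiz hG C
    (fun c hc' => by
      obtain ⟨w, hw, rfl⟩ := Finset.mem_image.1 hc'
      exact hS.cor w hw)
    (fun c hc' c'' hc'' hne => by
      obtain ⟨w, hw, rfl⟩ := Finset.mem_image.1 hc'
      obtain ⟨w', hw', rfl⟩ := Finset.mem_image.1 hc''
      exact hS.dis w hw w' hw' fun h => hne (by rw [h]))
  have hΓcost : cost Γ ≤ κ := by
    refine g4.trans ?_
    calc (C.card : ℝ≥0∞) * cost γ ≤ ((C.card : ℝ≥0∞) + 1) * (κ / ((C.card : ℝ≥0∞) + 1)) := by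
          gcongr
          exact le_self_add
      _ = κ := ENNReal.mul_div_cancel (by positivity)
          (ENNReal.add_ne_top.2 ⟨ENNReal.natCast_ne_top _, ENNReal.one_ne_top⟩)
  -- structure of Γ on the boxes
  have hbox : ∀ w ∈ W, ∀ x ∈ Box e w.1 δ, ∃ y : ι → ℝ, (∀ a, 0 ≤ y (e a) ∧ y (e a) ≤ 1) ∧
      x = w.1 + δ * y ∧ Γ x = w.1 + δ * γ y := by
    intro w hw x hx
    refine ⟨(aff w.1 δ hsiz.pos).symm x, (mem_Box_iff hsiz.pos x).1 hx,
      (aff_symm_spec hsiz.pos x).symm, ?_⟩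
    rw [← g5 w.1 (Finset.mem_image_of_mem _ hw) _ ((mem_Box_iff hsiz.pos x).1 hx),
      aff_symm_spec hsiz.pos x]
  have hΓbox : ∀ w ∈ W, ∀ x ∈ Box e w.1 δ, Γ x ∈ Box e w.1 δ := by
    intro w hw x hx
    obtain ⟨y, hy, -, h2⟩ := hbox w hw x hx
    rw [h2]
    exact mem_Box_aff hsiz.pos fun a => hG.act hy a
  have hΓout : ∀ x, (∀ w ∈ W, x ∉ Box e w.1 δ) → Γ x = x := by
    intro x hx
    apply g6
    intro c hc'
    obtain ⟨w, hw, rfl⟩ := Finset.mem_image.1 hc'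
    exact hx w hw
  have hp : (0:ℝ) < (1 / 2) ^ n := by positivity
  have hΓdist : ∀ x, dist (Γ x) x ≤ (1 / 2) ^ n := by
    intro x
    by_cases hx : ∀ w ∈ W, x ∉ Box e w.1 δ
    · rw [hΓout x hx, dist_self]; exact hp.le
    · push Not at hx
      obtain ⟨w, hw, hxw⟩ := hx
      have h1 := hΓbox w hw x hxw
      rw [dist_pi_le_iff hp.le]
      intro k
      by_cases hk : k ∈ range e
      · obtain ⟨a, rfl⟩ := hk
        have h2 := h1 a
        have h3 := hxw a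
        have h4 := sz_le e he hS.s1 a
        rw [← hδ] at h4
        rw [Real.dist_eq, abs_le]
        constructor <;> linarith [h2.1, h2.2, h3.1, h3.2]
      · rw [g3 x k hk, dist_self]; exact hp.le
  -- the new data
  set f' : (ι → ℝ) ≃ (ι → ℝ) := Γ.trans f with hf'
  set σ' : ℝ := σ * s with hσ'
  have hszs : sz e (n + 1) σ' = δ * dd e s := sz_succ e he n σ s
  set W' : Finset ((ι → ℝ) × (ι → ℝ)) := (W ×ˢ (Finset.univ : Finset Dig)).image
    (fun p => (p.1.1 + δ * oo e p.2 s, p.1.2 + δ * vv e p.2)) with hW'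
  have hs0' : 0 < σ' := mul_pos hS.s0 hs0
  have hs1' : σ' ≤ (1 / 2) ^ (n + 1) := by
    rw [pow_succ]
    exact mul_le_mul hS.s1 hs1 hs0.le hp.le
  have hsiz' := sz_siz e he hs0' hs1'
  -- points of the child boxes
  have hchild : ∀ w ∈ W, ∀ k : Dig, ∀ x ∈ Box e (w.1 + δ * oo e k s) (sz e (n + 1) σ'),
      ∃ y : ι → ℝ, (∀ a, 0 ≤ y (e a) ∧ y (e a) ≤ 1) ∧ x = w.1 + δ * (oo e k s + dd e s * y) := by
    intro w hw k x hx
    refine ⟨(aff (w.1 + δ * oo e k s) (sz e (n + 1) σ') hsiz'.pos).symm x,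
      (mem_Box_iff hsiz'.pos x).1 hx, ?_⟩
    have h1 := aff_symm_spec (c := w.1 + δ * oo e k s) hsiz'.pos x
    generalize (aff (w.1 + δ * oo e k s) (sz e (n + 1) σ') hsiz'.pos).symm x = y at h1 ⊢
    rw [← h1, hszs]
    ring
  have hsub : ∀ w ∈ W, ∀ k : Dig, Box e (w.1 + δ * oo e k s) (sz e (n + 1) σ') ⊆ Box e w.1 δ := by
    intro w hw k x hx
    obtain ⟨y, hy, rfl⟩ := hchild w hw k x hx
    exact mem_Box_aff hsiz.pos fun a => (child_mem e he k hs0 hs2 hy a).1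
  -- the corners and the values of the third coordinate
  have hcorn : ∀ w ∈ W, ∀ k : Dig, w.1 + δ * oo e k s ∈
      Box e (w.1 + δ * oo e k s) (sz e (n + 1) σ') ∧
      w.1 + δ * oo e k s + sz e (n + 1) σ' ∈
      Box e (w.1 + δ * oo e k s) (sz e (n + 1) σ') := by
    intro w hw k
    refine ⟨fun a => ⟨le_rfl, ?_⟩, fun a => ⟨?_, le_rfl⟩⟩
    · have := hsiz'.pos (e a); linarith
    · have := hsiz'.pos (e a)
      simp only [Pi.add_apply]
      linarith
  refine ⟨f', σ', W', ⟨?_, ?_, ?_, hs0', hs1', ?_, ?_, ?_, ?_, ?_, ?_⟩, K Γ hΓcost, ?_, ?_, ?_, ?_⟩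
  · exact g1.trans hS.bl
  · exact g2.trans hS.pq
  · intro x k hk
    rw [hf', Equiv.trans_apply, hS.pas _ k hk, g3 x k hk]
  · -- corners
    intro w' hw'
    rw [hW', Finset.mem_image] at hw'
    obtain ⟨⟨w, k⟩, hwk, rfl⟩ := hw'
    have hw : w ∈ W := (Finset.mem_product.1 hwk).1
    have hcw := hS.cor w hw
    have hlo := hsub w hw k (hcorn w hw k).1
    have hhi := hsub w hw k (hcorn w hw k).2
    refine ⟨fun i hi => ?_, fun a => ?_, fun a => ?_⟩
    · simp only [Pi.add_apply, Pi.mul_apply]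
      rw [hcw.pas i hi]
      unfold oo
      rw [vec_pas e _ _ hi]; ring
    · exact (hcw.lo a).trans (hlo a).1
    · exact (hhi a).2.trans (hcw.hi a)
  · -- passive parts
    intro w' hw' i hi
    rw [hW', Finset.mem_image] at hw'
    obtain ⟨⟨w, k⟩, hwk, rfl⟩ := hw'
    have hw : w ∈ W := (Finset.mem_product.1 hwk).1
    simp only [Pi.add_apply, Pi.mul_apply]
    rw [hS.vpas w hw i hi]
    unfold vv
    rw [vec_pas e _ _ hi]; ring
  · -- disjointness
    intro w' hw' w'' hw'' hne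
    rw [hW', Finset.mem_image] at hw' hw''
    obtain ⟨⟨w, k⟩, hwk, rfl⟩ := hw'
    obtain ⟨⟨u, l⟩, hul, rfl⟩ := hw''
    have hw : w ∈ W := (Finset.mem_product.1 hwk).1
    have hu : u ∈ W := (Finset.mem_product.1 hul).1
    by_cases hwu : w = u
    · subst hwu
      have hkl : k ≠ l := fun h => hne (by rw [h])
      rw [Set.disjoint_left]
      intro x hx hx'
      obtain ⟨y, hy, hxy⟩ := hchild w hw k x hx
      obtain ⟨z, hz, hxz⟩ := hchild w hw l x hx'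
      have h1 : (w.1 + δ * (oo e k s + dd e s * y)) (e 2) =
          (w.1 + δ * (oo e l s + dd e s * z)) (e 2) := by rw [← hxy, ← hxz]
      have hδ2 := hsiz.pos (e 2)
      simp only [Pi.add_apply, Pi.mul_apply] at h1
      have h2 : oo e k s (e 2) + dd e s (e 2) * y (e 2) =
          oo e l s (e 2) + dd e s (e 2) * z (e 2) := by
        have := add_left_cancel h1
        exact mul_left_cancel₀ hδ2.ne' this
      unfold oo dd at h2
      simp only [vec_act e he, Matrix.cons_val] at h2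
      have h3 := tau_sep hkl
      have h4 : tau k - tau l = s * (z (e 2) - y (e 2)) := by linarith
      rw [h4, abs_mul, abs_of_pos hs0] at h3
      have h5 : |z (e 2) - y (e 2)| ≤ 1 := by
        rw [abs_le]; constructor <;> linarith [(hy 2).1, (hy 2).2, (hz 2).1, (hz 2).2]
      nlinarith [abs_nonneg (z (e 2) - y (e 2))]
    · exact (hS.dis w hw u hu hwu).mono (hsub w hw k) (hsub u hu l)
  · -- translations
    intro w' hw' x hx
    rw [hW', Finset.mem_image] at hw'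
    obtain ⟨⟨w, k⟩, hwk, rfl⟩ := hw'
    have hw : w ∈ W := (Finset.mem_product.1 hwk).1
    obtain ⟨y, hy, rfl⟩ := hchild w hw k x hx
    have hin : ∀ a, 0 ≤ (oo e k s + dd e s * y) (e a) ∧ (oo e k s + dd e s * y) (e a) ≤ 1 :=
      fun a => (child_mem e he k hs0 hs2 hy a).1
    have hin' : ∀ a, 0 ≤ (oo e k s + dd e s * y + vv e k) (e a) ∧
        (oo e k s + dd e s * y + vv e k) (e a) ≤ 1 :=
      fun a => (child_mem e he k hs0 hs2 hy a).2
    rw [hf', Equiv.trans_apply, g5 w.1 (Finset.mem_image_of_mem _ hw) _ hin, htr k y hy,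
      hS.tr w hw _ (mem_Box_aff hsiz.pos hin')]
    ring
  · -- cover
    intro q hq
    obtain ⟨w, hw, t, ht, e0, e1, e2, e3⟩ := hS.cov q hq
    obtain ⟨iA, r0, hr0, hr0'⟩ := exists_dg (ht 0)
    obtain ⟨iB, r1, hr1, hr1'⟩ := exists_dg (ht 1)
    obtain ⟨jA, r2, hr2, hr2'⟩ := exists_dg (ht 2)
    obtain ⟨jB, r3, hr3, hr3'⟩ := exists_dg (ht 3)
    have z0 : δ (e 0) = (1 / 2) ^ n := by rw [hδ]; unfold sz; rw [vec_act e he]; rfl
    have z1 : δ (e 1) = (1 / 2) ^ n := by rw [hδ]; unfold sz; rw [vec_act e he]; rfl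
    have y0 : oo e (iA, iB, jA, jB) s (e 0) = (1 + dg iA) / 6 := by
      unfold oo; rw [vec_act e he]; rfl
    have y1 : oo e (iA, iB, jA, jB) s (e 1) = (1 + dg iB) / 6 := by
      unfold oo; rw [vec_act e he]; rfl
    have x0 : vv e (iA, iB, jA, jB) (e 0) = (dg jA - dg iA) / 6 := by
      unfold vv; rw [vec_act e he]; rfl
    have x1 : vv e (iA, iB, jA, jB) (e 1) = (dg jB - dg iB) / 6 := by
      unfold vv; rw [vec_act e he]; rfl
    refine ⟨(w.1 + δ * oo e (iA, iB, jA, jB) s, w.2 + δ * vv e (iA, iB, jA, jB)), ?_,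
      ![r0, r1, r2, r3], ?_, ?_, ?_, ?_, ?_⟩
    · rw [hW', Finset.mem_image]
      exact ⟨(w, (iA, iB, jA, jB)), Finset.mem_product.2 ⟨hw, Finset.mem_univ _⟩, rfl⟩
    · intro a
      fin_cases a
      · exact hr0
      · exact hr1
      · exact hr2
      · exact hr3
    · simp only [Pi.add_apply, Pi.mul_apply, z0, y0, Matrix.cons_val]
      rw [e0, hr0']; ring
    · simp only [Pi.add_apply, Pi.mul_apply, z1, y1, Matrix.cons_val]
      rw [e1, hr1']; ring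
    · simp only [Pi.add_apply, Pi.mul_apply, z0, y0, x0, Matrix.cons_val]
      rw [e2, hr2']; ring
    · simp only [Pi.add_apply, Pi.mul_apply, z1, y1, x1, Matrix.cons_val]
      rw [e3, hr3']; ring
  · -- low and high
    right
    intro w' hw'
    rw [hW', Finset.mem_image] at hw'
    obtain ⟨⟨w, k⟩, hwk, rfl⟩ := hw'
    have hw : w ∈ W := (Finset.mem_product.1 hwk).1
    have z3 : δ (e 3) = σ := by rw [hδ]; unfold sz; rw [vec_act e he]; rfl
    have y3 : oo e k s (e 3) = 1 / 3 - s / 2 := by unfold oo; rw [vec_act e he]; rfl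
    have x3 : vv e k (e 3) = 1 / 3 := by unfold vv; rw [vec_act e he]; rfl
    simp only [Pi.add_apply, Pi.mul_apply, z3, y3, x3, hσ']
    have hs3 := hS.s0
    rcases hS.lh with ⟨-, h1, h2⟩ | h1
    · obtain ⟨h3, h4⟩ := h2 w hw
      rw [h1, h3, h4]
      constructor <;> linarith
    · obtain ⟨h3, h4⟩ := h1 w hw
      constructor <;> nlinarith
  · intro x
    rw [hf', Equiv.trans_apply]
    by_cases hx : ∀ w ∈ W, x ∉ Box e w.1 δ
    · rw [hΓout x hx, dist_self]; exact hp.le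
    · push Not at hx
      obtain ⟨w, hw, hxw⟩ := hx
      rw [hS.tr w hw x hxw, hS.tr w hw _ (hΓbox w hw x hxw), dist_add_right]
      exact hΓdist x
  · intro x
    have : f'.symm x = Γ.symm (f.symm x) := rfl
    rw [this]
    have h1 := hΓdist (Γ.symm (f.symm x))
    rw [Equiv.apply_symm_apply, dist_comm] at h1
    exact h1
  · intro w' hw'
    rw [hW', Finset.mem_image] at hw'
    obtain ⟨⟨w, k⟩, hwk, rfl⟩ := hw'
    have hw : w ∈ W := (Finset.mem_product.1 hwk).1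
    exact ⟨w, hw, hsub w hw k⟩
  · intro x hx
    rw [hf', Equiv.trans_apply, hΓout x hx]

end Pool.Agent.H25.GM
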