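import Mathlib
import Pool.Agent.H25.GM.Stage

set_option autoImplicit false
set_option linter.unusedSectionVars false
set_option linter.unusedVariables false
set_option linter.deprecated false

open MeasureTheory MeasureTheory.Measure Set Filter Topology
open scoped ENNReal NNReal

namespace Pool.Agent.H25.GM

/-- A uniform limit of homeomorphisms, with uniformly convergent inverses. -/
lemma limit_homeo {X : Type} [MetricSpace X] [CompleteSpace X] (f : ℕ → X ≃ X)
    (hc : ∀ n, Continuous (f n)) (hc' : ∀ n, Continuous (f n).symm)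
    (h1 : ∀ n x, dist (f (n + 1) x) (f n x) ≤ (1 / 2) ^ n)
    (h2 : ∀ n x, dist ((f (n + 1)).symm x) ((f n).symm x) ≤ (1 / 2) ^ n) :
    ∃ F : X ≃ₜ X, (∀ n x, dist (f n x) (F x) ≤ 2 * (1 / 2) ^ n) ∧
      ∀ n x, dist ((f n).symm x) (F.symm x) ≤ 2 * (1 / 2) ^ n := by
  have key : ∀ g : ℕ → X → X, (∀ n, Continuous (g n)) →
      (∀ n x, dist (g (n + 1) x) (g n x) ≤ (1 / 2) ^ n) →
      ∃ G : X → X, Continuous G ∧ ∀ n x, dist (g n x) (G x) ≤ 2 * (1 / 2) ^ n := by
    intro g hg hd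
    have hd' : ∀ x n, dist (g n x) (g (n + 1) x) ≤ 1 * (1 / 2) ^ n := fun x n => by
      rw [dist_comm, one_mul]; exact hd n x
    have hcau : ∀ x, CauchySeq fun n => g n x := fun x =>
      cauchySeq_of_le_geometric (1 / 2) 1 (by norm_num) (hd' x)
    have hlim : ∀ x, ∃ y, Tendsto (fun n => g n x) atTop (𝓝 y) := fun x =>
      cauchySeq_tendsto_of_complete (hcau x)
    choose G hG using hlim
    have hb : ∀ n x, dist (g n x) (G x) ≤ 2 * (1 / 2) ^ n := by
      intro n x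
      have := dist_le_of_le_geometric_of_tendsto (1 / 2) 1 (by norm_num) (hd' x) (hG x) n
      refine this.trans (le_of_eq ?_)
      ring
    refine ⟨G, ?_, hb⟩
    have hu : TendstoUniformly g G atTop := by
      rw [Metric.tendstoUniformly_iff]
      intro δ hδ
      have ht : Tendsto (fun n : ℕ => 2 * (1 / 2 : ℝ) ^ n) atTop (𝓝 (2 * 0)) :=
        (tendsto_pow_atTop_nhds_zero_of_lt_one (by norm_num) (by norm_num)).const_mul 2
      rw [mul_zero] at ht
      filter_upwards [ht.eventually (gt_mem_nhds hδ)] with n hn x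
      rw [dist_comm]
      exact (hb n x).trans_lt hn
    exact hu.continuous (Frequently.of_forall hg)
  obtain ⟨F, hF, hF'⟩ := key (fun n => f n) hc h1
  obtain ⟨G, hG, hG'⟩ := key (fun n => (f n).symm) hc' h2
  have ht : Tendsto (fun n : ℕ => 2 * (1 / 2 : ℝ) ^ n) atTop (𝓝 0) := by
    have := (tendsto_pow_atTop_nhds_zero_of_lt_one (r := (1 / 2 : ℝ)) (by norm_num)
      (by norm_num)).const_mul 2
    rwa [mul_zero] at this
  have comp : ∀ (a b : ℕ → X → X) (A B : X → X), Continuous A →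
      (∀ n x, dist (a n x) (A x) ≤ 2 * (1 / 2) ^ n) →
      (∀ n x, dist (b n x) (B x) ≤ 2 * (1 / 2) ^ n) → (∀ n x, a n (b n x) = x) →
      ∀ x, A (B x) = x := by
    intro a b A B hA ha hb hab x
    have hb1 : Tendsto (fun n => b n x) atTop (𝓝 (B x)) :=
      tendsto_iff_dist_tendsto_zero.2 (squeeze_zero (fun _ => dist_nonneg) (fun n => hb n x) ht)
    have h3 : Tendsto (fun n => A (b n x)) atTop (𝓝 (A (B x))) := (hA.tendsto _).comp hb1
    have h4 : Tendsto (fun n => A (b n x)) atTop (𝓝 x) := by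
      refine tendsto_iff_dist_tendsto_zero.2 (squeeze_zero (fun _ => dist_nonneg) (fun n => ?_) ht)
      have := ha n (b n x)
      rw [hab, dist_comm] at this
      exact this
    exact tendsto_nhds_unique h3 h4
  refine ⟨⟨⟨F, G, ?_, ?_⟩, hF, hG⟩, hF', hG'⟩
  · exact comp _ _ G F hG hG' hF' (fun n x => (f n).symm_apply_apply x)
  · exact comp _ _ F G hF hF' hG' (fun n x => (f n).apply_symm_apply x)

variable {ι : Type} [Fintype ι] [DecidableEq ι]

variable (e : Fin 4 → ι) (he : Function.Injective e)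

/-- the relation between consecutive stages -/
def Rel (n : ℕ) (ε : ℝ≥0∞) (p p' : ((ι → ℝ) ≃ (ι → ℝ)) × ℝ × Finset ((ι → ℝ) × (ι → ℝ))) : Prop :=
  cost p'.1 ≤ cost p.1 + ε ∧ (∀ x, dist (p'.1 x) (p.1 x) ≤ (1 / 2) ^ n) ∧
      (∀ x, dist (p'.1.symm x) (p.1.symm x) ≤ (1 / 2) ^ n) ∧
      (∀ w' ∈ p'.2.2, ∃ w ∈ p.2.2, Box e w'.1 (sz e (n + 1) p'.2.1) ⊆ Box e w.1 (sz e n p.2.1)) ∧
      (∀ x, (∀ w ∈ p.2.2, x ∉ Box e w.1 (sz e n p.2.1)) → p'.1 x = p.1 x)

include he in
lemma exists_seq (ε : ℕ → ℝ≥0∞) (hε : ∀ n, 0 < ε n) :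
    ∃ p : ℕ → ((ι → ℝ) ≃ (ι → ℝ)) × ℝ × Finset ((ι → ℝ) × (ι → ℝ)),
      (p 0).1 = Equiv.refl _ ∧ (∀ n, Stage e n (p n).1 (p n).2.1 (p n).2.2) ∧
      ∀ n, Rel e n (ε n) (p n) (p (n + 1)) := by
  have hstep : ∀ (n : ℕ) (p : {p : ((ι → ℝ) ≃ (ι → ℝ)) × ℝ × Finset ((ι → ℝ) × (ι → ℝ)) //
      Stage e n p.1 p.2.1 p.2.2}), ∃ p' : {p' : ((ι → ℝ) ≃ (ι → ℝ)) × ℝ ×
      Finset ((ι → ℝ) × (ι → ℝ)) // Stage e (n + 1) p'.1 p'.2.1 p'.2.2},
      Rel e n (ε n) p.1 p'.1 := by
    rintro n ⟨⟨f, σ, W⟩, hS⟩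
    obtain ⟨f', σ', W', h1, h2⟩ := step e he hS (hε n)
    exact ⟨⟨(f', σ', W'), h1⟩, h2⟩
  choose nxt hnxt using hstep
  let q : (n : ℕ) → {p : ((ι → ℝ) ≃ (ι → ℝ)) × ℝ × Finset ((ι → ℝ) × (ι → ℝ)) //
      Stage e n p.1 p.2.1 p.2.2} := fun n => Nat.rec ⟨(Equiv.refl _, 1, {(0, 0)}), Stage.zero e he⟩
        (fun n p => nxt n p) n
  refine ⟨fun n => (q n).1, rfl, fun n => (q n).2, fun n => ?_⟩
  exact hnxt n (q n)

lemma isClosed_Q : IsClosed (Q ι) := isClosed_Icc

include he in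
/-- The construction, in the sup norm. -/
theorem main_sup {ε : ℝ≥0∞} (hε : 0 < ε) :
    ∃ (F : (ι → ℝ) ≃ₜ (ι → ℝ)) (f : ℕ → (ι → ℝ) ≃ₜ (ι → ℝ)),
      (∀ x, F x ∈ Q ι ↔ x ∈ Q ι) ∧ (∀ n x, f n x ∈ Q ι ↔ x ∈ Q ι) ∧
      (∀ n x, dist (f n x) (F x) ≤ 2 * (1 / 2) ^ n) ∧
      (∀ n, 1 ≤ n → ∀ x, f n x = x → F x = x) ∧ (∀ n, cost (f n) ≤ ε) ∧
      (∀ q : ι → ℝ, (∀ a, 1 / 3 ≤ q (e a) ∧ q (e a) ≤ 2 / 3) →
        (∀ k, k ∉ range e → 0 ≤ q k ∧ q k ≤ 1) →
        ∃ x ∈ Q ι, F x ≠ x ∧ x (e 0) = q (e 0) ∧ x (e 1) = q (e 1) ∧ F x (e 0) = q (e 2) ∧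
          F x (e 1) = q (e 3) ∧ ∀ k, k ∉ range e → x k = q k) := by
  obtain ⟨ε', hε', hsum⟩ := ENNReal.exists_pos_sum_of_countable hε.ne' ℕ
  obtain ⟨p, hp0, hSt, hR⟩ := exists_seq e he (fun n => (ε' n : ℝ≥0∞))
    (fun n => ENNReal.coe_pos.2 (hε' n))
  obtain ⟨F, hF, hF'⟩ := limit_homeo (fun n => (p n).1) (fun n => (hSt n).bl.continuous)
    (fun n => (hSt n).bl.symm.continuous) (fun n x => (hR n).2.1 x) (fun n x => (hR n).2.2.1 x)
  have ht : Tendsto (fun n : ℕ => 2 * (1 / 2 : ℝ) ^ n) atTop (𝓝 0) := by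
    have := (tendsto_pow_atTop_nhds_zero_of_lt_one (r := (1 / 2 : ℝ)) (by norm_num)
      (by norm_num)).const_mul 2
    rwa [mul_zero] at this
  have hlim : ∀ x, Tendsto (fun n => (p n).1 x) atTop (𝓝 (F x)) := fun x =>
    tendsto_iff_dist_tendsto_zero.2 (squeeze_zero (fun _ => dist_nonneg) (fun n => hF n x) ht)
  have hlim' : ∀ x, Tendsto (fun n => (p n).1.symm x) atTop (𝓝 (F.symm x)) := fun x =>
    tendsto_iff_dist_tendsto_zero.2 (squeeze_zero (fun _ => dist_nonneg) (fun n => hF' n x) ht)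
  -- outside the boxes
  have hnest : ∀ n x, (∀ w ∈ (p n).2.2, x ∉ Box e w.1 (sz e n (p n).2.1)) →
      (∀ w ∈ (p (n + 1)).2.2, x ∉ Box e w.1 (sz e (n + 1) (p (n + 1)).2.1)) ∧
      (p (n + 1)).1 x = (p n).1 x := by
    intro n x hx
    refine ⟨fun w' hw' hx' => ?_, (hR n).2.2.2.2 x hx⟩
    obtain ⟨w, hw, hww⟩ := (hR n).2.2.2.1 w' hw'
    exact hx w hw (hww hx')
  have hnest' : ∀ n x, (∀ w ∈ (p n).2.2, x ∉ Box e w.1 (sz e n (p n).2.1)) → ∀ m,
      (∀ w ∈ (p (n + m)).2.2, x ∉ Box e w.1 (sz e (n + m) (p (n + m)).2.1)) ∧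
      (p (n + m)).1 x = (p n).1 x := by
    intro n x hx m
    induction m with
    | zero => exact ⟨hx, rfl⟩
    | succ m ih =>
      have := hnest (n + m) x ih.1
      exact ⟨this.1, this.2.trans ih.2⟩
  refine ⟨F, fun n => ⟨(p n).1, (hSt n).bl.continuous, (hSt n).bl.symm.continuous⟩, ?_, ?_, hF, ?_,
    ?_, ?_⟩
  · intro x
    constructor
    · intro hx
      have h1 : ∀ n, (p n).1.symm (F x) ∈ Q ι := fun n => ((hSt n).pq.symm _).2 hx
      have h2 := isClosed_Q.mem_of_tendsto (hlim' (F x)) (Eventually.of_forall h1)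
      simpa using h2
    · intro hx
      have h1 : ∀ n, (p n).1 x ∈ Q ι := fun n => ((hSt n).pq _).2 hx
      exact isClosed_Q.mem_of_tendsto (hlim x) (Eventually.of_forall h1)
  · intro n x
    exact (hSt n).pq x
  · intro n hn x hx
    have hx' : (p n).1 x = x := hx
    have hout : ∀ w ∈ (p n).2.2, x ∉ Box e w.1 (sz e n (p n).2.1) := by
      intro w hw hxw
      have h1 := (hSt n).tr w hw x hxw
      rw [hx'] at h1
      have h2 : w.2 (e 3) = 0 := by
        have := congrFun h1 (e 3)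
        simp only [Pi.add_apply] at this
        linarith
      rcases (hSt n).lh with ⟨h0, -⟩ | h3
      · omega
      · obtain ⟨h4, h5⟩ := h3 w hw
        have := (hSt n).s0
        linarith
    have h1 : ∀ m, (p (n + m)).1 x = x := fun m => (hnest' n x hout m).2.trans hx'
    have h2 : Tendsto (fun m => (p (n + m)).1 x) atTop (𝓝 (F x)) := by
      have := (hlim x).comp (tendsto_add_atTop_nat n)
      refine this.congr fun m => ?_
      simp only [Function.comp_apply]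
      rw [add_comm]
    have h3 : Tendsto (fun m => (p (n + m)).1 x) atTop (𝓝 x) := by
      refine tendsto_const_nhds.congr fun m => ?_
      rw [h1]
    exact tendsto_nhds_unique h2 h3
  · intro n
    have : ∀ n, cost (p n).1 ≤ ∑ i ∈ Finset.range n, (ε' i : ℝ≥0∞) := by
      intro n
      induction n with
      | zero => rw [hp0, cost_refl]; exact zero_le
      | succ n ih =>
        rw [Finset.sum_range_succ]
        exact (hR n).1.trans (add_le_add ih le_rfl)
    exact (this n).trans ((ENNReal.sum_le_tsum _).trans hsum.le)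
  · intro q hq hqp
    have hcov : ∀ n, ∃ x ∈ Q ι, x (e 0) = q (e 0) ∧ x (e 1) = q (e 1) ∧
        |(p n).1 x (e 0) - q (e 2)| ≤ (1 / 2) ^ n ∧ |(p n).1 x (e 1) - q (e 3)| ≤ (1 / 2) ^ n ∧
        (1 ≤ n → 1 / 6 ≤ (p n).1 x (e 3) - x (e 3)) ∧ ∀ k, k ∉ range e → x k = q k := by
      intro n
      obtain ⟨w, hw, t, ht, e0, e1, e2, e3⟩ := (hSt n).cov (fun a => q (e a)) hq
      have hcor := (hSt n).cor w hw
      have hsz : ∀ a, sz e n (p n).2.1 (e a) = (![(1 / 2) ^ n, (1 / 2) ^ n, (p n).2.1,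
        (p n).2.1] : Fin 4 → ℝ) a := fun a => by unfold sz; rw [vec_act e he]
      have hpn : (0:ℝ) < (1 / 2) ^ n := by positivity
      have hs0 := (hSt n).s0
      let x : ι → ℝ := Function.extend e ![q (e 0), q (e 1), w.1 (e 2), w.1 (e 3)] q
      have hxa : ∀ a, x (e a) = (![q (e 0), q (e 1), w.1 (e 2), w.1 (e 3)] : Fin 4 → ℝ) a :=
        fun a => he.extend_apply _ _ _
      have hxp : ∀ k, k ∉ range e → x k = q k := fun k hk =>
        Function.extend_apply' _ _ _ (by simpa using hk)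
      have x0 : x (e 0) = q (e 0) := hxa 0
      have x1 : x (e 1) = q (e 1) := hxa 1
      have x2 : x (e 2) = w.1 (e 2) := hxa 2
      have x3 : x (e 3) = w.1 (e 3) := hxa 3
      have hxB : x ∈ Box e w.1 (sz e n (p n).2.1) := by
        intro a
        rw [hsz]
        fin_cases a
        · simp only [Fin.zero_eta, Matrix.cons_val]
          rw [x0, e0]
          constructor <;> nlinarith [(ht 0).1, (ht 0).2]
        · simp only [Fin.mk_one, Matrix.cons_val]
          rw [x1, e1]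
          constructor <;> nlinarith [(ht 1).1, (ht 1).2]
        · simp only [Fin.reduceFinMk, Matrix.cons_val]
          rw [x2]
          constructor <;> linarith
        · simp only [Fin.reduceFinMk, Matrix.cons_val]
          rw [x3]
          constructor <;> linarith
      have hxQ : x ∈ Q ι := by
        constructor
        · intro k
          by_cases hk : k ∈ range e
          · obtain ⟨a, rfl⟩ := hk
            exact (hcor.lo a).trans (hxB a).1
          · rw [hxp k hk]; exact (hqp k hk).1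
        · intro k
          by_cases hk : k ∈ range e
          · obtain ⟨a, rfl⟩ := hk
            exact (hxB a).2.trans (hcor.hi a)
          · rw [hxp k hk]; exact (hqp k hk).2
      have htr := (hSt n).tr w hw x hxB
      refine ⟨x, hxQ, x0, x1, ?_, ?_, ?_, hxp⟩
      · rw [htr, Pi.add_apply, x0, e0, e2, abs_le]
        constructor <;> nlinarith [(ht 0).1, (ht 0).2, (ht 2).1, (ht 2).2]
      · rw [htr, Pi.add_apply, x1, e1, e3, abs_le]
        constructor <;> nlinarith [(ht 1).1, (ht 1).2, (ht 3).1, (ht 3).2]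
      · intro hn
        rw [htr, Pi.add_apply]
        rcases (hSt n).lh with ⟨h0, -⟩ | h3
        · omega
        · obtain ⟨h4, h5⟩ := h3 w hw
          linarith
    choose x hxQ hx0 hx1 hx2 hx3 hx4 hxp using hcov
    have hcomp : IsCompact (Q ι) := isCompact_Icc
    obtain ⟨y, hyQ, φ, hφ, hy⟩ := hcomp.tendsto_subseq hxQ
    have hFy : Tendsto (fun n => (p (φ n)).1 (x (φ n))) atTop (𝓝 (F y)) := by
      have h1 : Tendsto (fun n => F (x (φ n))) atTop (𝓝 (F y)) :=
        (F.continuous.tendsto y).comp hy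
      have h2 : Tendsto (fun n => dist (F (x (φ n))) ((p (φ n)).1 (x (φ n)))) atTop (𝓝 0) := by
        refine squeeze_zero (fun _ => dist_nonneg) (fun n => ?_) (ht.comp hφ.tendsto_atTop)
        rw [dist_comm]
        exact hF (φ n) (x (φ n))
      exact (tendsto_iff_of_dist h2).1 h1
    have hpow : Tendsto (fun n : ℕ => (1 / 2 : ℝ) ^ (φ n)) atTop (𝓝 0) :=
      (tendsto_pow_atTop_nhds_zero_of_lt_one (by norm_num) (by norm_num)).comp hφ.tendsto_atTop
    have hev : ∀ k, Tendsto (fun n => x (φ n) k) atTop (𝓝 (y k)) := fun k =>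
      (tendsto_pi_nhds.1 hy k)
    have hev' : ∀ k, Tendsto (fun n => (p (φ n)).1 (x (φ n)) k) atTop (𝓝 (F y k)) := fun k =>
      (tendsto_pi_nhds.1 hFy k)
    have hconst : ∀ (k : ι) (c : ℝ), (∀ n, x n k = c) → y k = c := by
      intro k c h
      refine tendsto_nhds_unique (hev k) ?_
      refine tendsto_const_nhds.congr fun n => ?_
      rw [h]
    have happ : ∀ (k : ι) (c : ℝ), (∀ n, |(p n).1 (x n) k - c| ≤ (1 / 2) ^ n) → F y k = c := by
      intro k c h
      refine tendsto_nhds_unique (hev' k) ?_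
      refine tendsto_iff_dist_tendsto_zero.2 (squeeze_zero (fun _ => dist_nonneg) (fun n => ?_) hpow)
      rw [Real.dist_eq]
      exact h (φ n)
    refine ⟨y, hyQ, ?_, hconst _ _ hx0, hconst _ _ hx1, happ _ _ hx2, happ _ _ hx3,
      fun k hk => hconst k _ (fun n => hxp n k hk)⟩
    intro heq
    have h1 : Tendsto (fun n => (p (φ n)).1 (x (φ n)) (e 3) - x (φ n) (e 3)) atTop
        (𝓝 (F y (e 3) - y (e 3))) := (hev' (e 3)).sub (hev (e 3))
    have h2 : (1 / 6 : ℝ) ≤ F y (e 3) - y (e 3) := by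
      refine ge_of_tendsto h1 ?_
      filter_upwards [hφ.tendsto_atTop.eventually (eventually_ge_atTop 1)] with n hn
      exact hx4 (φ n) hn
    rw [heq] at h2
    linarith

end Pool.Agent.H25.GM
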