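import Mathlib
import Pool.Agent.H25.GM.Limit

set_option autoImplicit false
set_option linter.unusedSectionVars false
set_option linter.unusedVariables false
set_option linter.deprecated false

open MeasureTheory MeasureTheory.Measure Set Filter Topology
open scoped ENNReal NNReal

namespace Pool.Agent.H25.GM

variable {ι : Type} [Fintype ι] [DecidableEq ι]

/-- the pair as a point of the Euclidean space of twice the dimension -/
noncomputable def J (p : (ι → ℝ) × (ι → ℝ)) : EuclideanSpace ℝ (ι ⊕ ι) :=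
  WithLp.toLp 2 (Sum.elim p.1 p.2)

lemma J_lip : ∃ K : ℝ≥0, LipschitzWith K (J : (ι → ℝ) × (ι → ℝ) → EuclideanSpace ℝ (ι ⊕ ι)) := by
  have h1 : LipschitzWith 1 (fun p : (ι → ℝ) × (ι → ℝ) => (Sum.elim p.1 p.2 : ι ⊕ ι → ℝ)) := by
    refine LipschitzWith.of_dist_le_mul fun p q => ?_
    rw [NNReal.coe_one, one_mul, dist_pi_le_iff dist_nonneg]
    rintro (k | k)
    · simp only [Sum.elim_inl]
      exact (dist_le_pi_dist p.1 q.1 k).trans (le_max_left _ _)
    · simp only [Sum.elim_inr]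
      exact (dist_le_pi_dist p.2 q.2 k).trans (le_max_right _ _)
  exact ⟨_, (PiLp.lipschitzWith_toLp 2 (fun _ : ι ⊕ ι => ℝ)).comp h1⟩

lemma J_inj : Function.Injective (J : (ι → ℝ) × (ι → ℝ) → EuclideanSpace ℝ (ι ⊕ ι)) := by
  rintro ⟨x, y⟩ ⟨x', y'⟩ h
  have h1 : (Sum.elim x y : ι ⊕ ι → ℝ) = Sum.elim x' y' := by
    have := congrArg (fun z : EuclideanSpace ℝ (ι ⊕ ι) => (WithLp.ofLp z : ι ⊕ ι → ℝ)) h
    exact this
  ext k
  · exact congrFun h1 (Sum.inl k)
  · exact congrFun h1 (Sum.inr k)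

/-- the graph over the cube -/
def Gr (f : (ι → ℝ) → (ι → ℝ)) : Set ((ι → ℝ) × (ι → ℝ)) := {p | p.1 ∈ Q ι ∧ p.2 = f p.1}

/-- the part of the graph on the diagonal -/
def Dg (f : (ι → ℝ) → (ι → ℝ)) : Set ((ι → ℝ) × (ι → ℝ)) :=
  {p | p.1 ∈ Q ι ∧ p.2 = p.1 ∧ f p.1 = p.1}

lemma Gr_eq (f : (ι → ℝ) → (ι → ℝ)) : Gr f = Dg f ∪ off f := by
  ext ⟨x, y⟩
  simp only [Gr, Dg, off, mem_setOf_eq, mem_union]
  constructor
  · rintro ⟨h1, h2⟩
    by_cases h : y = x
    · left; exact ⟨h1, h, by rw [← h2, h]⟩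
    · right; exact ⟨h1, h2, h⟩
  · rintro (⟨h1, h2, h3⟩ | ⟨h1, h2, h3⟩)
    · exact ⟨h1, by rw [h2, h3]⟩
    · exact ⟨h1, h2⟩

lemma Dg_disj (f : (ι → ℝ) → (ι → ℝ)) : Disjoint (Dg f) (off f) := by
  rw [Set.disjoint_left]
  rintro ⟨x, y⟩ ⟨-, h2, -⟩ ⟨-, -, h3⟩
  exact h3 h2

lemma Dg_compact {f : (ι → ℝ) → (ι → ℝ)} (hf : Continuous f) : IsCompact (Dg f) := by
  have h : Dg f = (fun x : ι → ℝ => (x, x)) '' (Q ι ∩ {x | f x = x}) := by
    ext ⟨x, y⟩
    simp only [Dg, mem_setOf_eq, mem_image, mem_inter_iff, Prod.mk.injEq]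
    constructor
    · rintro ⟨h1, h2, h3⟩
      exact ⟨x, ⟨h1, h3⟩, rfl, h2.symm⟩
    · rintro ⟨z, ⟨h1, h2⟩, rfl, rfl⟩
      exact ⟨h1, rfl, h2⟩
  rw [h]
  have hQ : IsCompact (Q ι) := isCompact_Icc
  exact (hQ.inter_right (isClosed_eq hf continuous_id)).image (by fun_prop)

/-- the coordinate map used for the lower bound -/
def idx (e : Fin 4 → ι) (k : ι) : ι ⊕ ι :=
  if k = e 2 then Sum.inr (e 0) else if k = e 3 then Sum.inr (e 1) else Sum.inl k

lemma proj_lip (φ : ι → ι ⊕ ι) :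
    LipschitzWith 1 (fun (z : EuclideanSpace ℝ (ι ⊕ ι)) (k : ι) => z (φ k)) := by
  refine LipschitzWith.of_dist_le_mul fun z w => ?_
  rw [NNReal.coe_one, one_mul, dist_pi_le_iff dist_nonneg]
  intro k
  have h1 := (PiLp.lipschitzWith_ofLp 2 (fun _ : ι ⊕ ι => ℝ)).dist_le_mul z w
  rw [NNReal.coe_one, one_mul] at h1
  exact (dist_le_pi_dist (WithLp.ofLp z) (WithLp.ofLp w) (φ k)).trans h1

variable (e : Fin 4 → ι) (he : Function.Injective e)

include he in
/-- The failure of lower semicontinuity, for maps of `ι → ℝ`. -/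
theorem main_meas :
    ∃ (c : ℝ≥0) (F : (ι → ℝ) ≃ₜ (ι → ℝ)) (f : ℕ → (ι → ℝ) ≃ₜ (ι → ℝ)),
      (∀ x, F x ∈ Q ι ↔ x ∈ Q ι) ∧ (∀ n x, f n x ∈ Q ι ↔ x ∈ Q ι) ∧
      (∀ n x, dist (f n x) (F x) ≤ 2 * (1 / 2) ^ n) ∧
      (c : ℝ≥0∞) < μH[(Fintype.card ι : ℝ)] (J '' Gr F) ∧
      ∀ n, 1 ≤ n → μH[(Fintype.card ι : ℝ)] (J '' Gr (f n)) ≤ c := by
  obtain ⟨K, hK⟩ := J_lip (ι := ι)
  have hK' : LipschitzWith (max 1 K) (J : (ι → ℝ) × (ι → ℝ) → _) := hK.weaken (le_max_right _ _)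
  obtain ⟨hCtop, hC0⟩ := const_ok (ι := ι) K
  set C : ℝ≥0∞ := ((max 1 K : ℝ≥0) : ℝ≥0∞) ^ (Fintype.card ι : ℝ) with hC
  -- the set covered
  set lo : ι → ℝ := vec e (fun _ => 1 / 3) 0 with hlo
  set hi : ι → ℝ := vec e (fun _ => 2 / 3) 1 with hhi
  set v : ℝ≥0∞ := volume (Icc lo hi) with hv
  have hvpos : 0 < v := by
    rw [hv, Real.volume_Icc_pi, pos_iff_ne_zero, Finset.prod_ne_zero_iff]
    intro k _
    apply ne_of_gt
    rw [ENNReal.ofReal_pos]
    by_cases hk : k ∈ range e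
    · obtain ⟨a, rfl⟩ := hk
      rw [hlo, hhi, vec_act e he, vec_act e he]; norm_num
    · rw [hlo, hhi, vec_pas e _ _ hk, vec_pas e _ _ hk]; norm_num
  have hvtop : v ≠ ⊤ := by
    rw [hv, Real.volume_Icc_pi]
    exact (ENNReal.prod_lt_top fun _ _ => ENNReal.ofReal_lt_top).ne
  have hδ : 0 < v / 2 / C := ENNReal.div_pos (ENNReal.half_pos hvpos.ne').ne' hCtop
  obtain ⟨F, f, hFQ, hfQ, hdist, hfix, hcost, hcov⟩ := main_sup e he hδ
  set D : ℝ≥0∞ := μH[(Fintype.card ι : ℝ)] (J '' Dg F) with hD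
  have hDtop : D ≠ ⊤ := by
    have hlip : LipschitzWith 1 (fun x : ι → ℝ => (x, x)) := by
      refine LipschitzWith.of_dist_le_mul fun x y => ?_
      rw [NNReal.coe_one, one_mul, Prod.dist_eq]
      simp
    have h1 : J '' Dg F ⊆ J '' ((fun x : ι → ℝ => (x, x)) '' Q ι) := by
      apply image_mono
      rintro ⟨x, y⟩ ⟨h1, h2, -⟩
      exact ⟨x, h1, by simp only at h2; rw [h2]⟩
    have h2 : D ≤ C * (((1 : ℝ≥0) : ℝ≥0∞) ^ (Fintype.card ι : ℝ) *
        μH[(Fintype.card ι : ℝ)] (Q ι)) := by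
      refine (measure_mono h1).trans ((hK'.hausdorffMeasure_image_le (by positivity) _).trans ?_)
      gcongr
      exact hlip.hausdorffMeasure_image_le (by positivity) _
    have h3 : μH[(Fintype.card ι : ℝ)] (Q ι) ≠ ⊤ := by
      rw [hausdorffMeasure_pi_real]
      unfold Q
      rw [Real.volume_Icc_pi]
      exact (ENNReal.prod_lt_top fun _ _ => ENNReal.ofReal_lt_top).ne
    refine ne_top_of_le_ne_top ?_ h2
    refine ENNReal.mul_ne_top hCtop (ENNReal.mul_ne_top ?_ h3)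
    simp
  -- lower bound
  have hlow : D + v ≤ μH[(Fintype.card ι : ℝ)] (J '' Gr F) := by
    have hcpt : IsCompact (J '' Dg F) := (Dg_compact F.continuous).image hK.continuous
    have hdisj : Disjoint (J '' Dg F) (J '' off F) := (disjoint_image_iff J_inj).2 (Dg_disj _)
    rw [Gr_eq, image_union, measure_union₀' hcpt.measurableSet.nullMeasurableSet
      hdisj.aedisjoint]
    gcongr
    have hsub : Icc lo hi ⊆ (fun (z : EuclideanSpace ℝ (ι ⊕ ι)) (k : ι) => z (idx e k)) ''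
        (J '' off F) := by
      intro q hq
      have hqa : ∀ a, 1 / 3 ≤ q (e a) ∧ q (e a) ≤ 2 / 3 := by
        intro a
        have h1 := hq.1 (e a)
        have h2 := hq.2 (e a)
        rw [hlo, vec_act e he] at h1
        rw [hhi, vec_act e he] at h2
        exact ⟨h1, h2⟩
      have hqp : ∀ k, k ∉ range e → 0 ≤ q k ∧ q k ≤ 1 := by
        intro k hk
        have h1 := hq.1 k
        have h2 := hq.2 k
        rw [hlo, vec_pas e _ _ hk] at h1
        rw [hhi, vec_pas e _ _ hk] at h2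
        exact ⟨h1, h2⟩
      obtain ⟨x, hxQ, hne, x0, x1, x2, x3, xp⟩ := hcov q hqa hqp
      refine ⟨J (x, F x), ⟨(x, F x), ⟨hxQ, rfl, hne⟩, rfl⟩, ?_⟩
      refine ext4 e (fun a => ?_) (fun k hk => ?_)
      · have n02 : e 0 ≠ e 2 := fun h => by simpa using he h
        have n03 : e 0 ≠ e 3 := fun h => by simpa using he h
        have n12 : e 1 ≠ e 2 := fun h => by simpa using he h
        have n13 : e 1 ≠ e 3 := fun h => by simpa using he h
        have n32 : e 3 ≠ e 2 := fun h => by simpa using he h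
        fin_cases a
        · simp [J, idx, n02, n03, x0]
        · simp [J, idx, n12, n13, x1]
        · simp [J, idx, x2]
        · simp [J, idx, n32, x3]
      · have n2 : k ≠ e 2 := fun h => hk ⟨2, h.symm⟩
        have n3 : k ≠ e 3 := fun h => hk ⟨3, h.symm⟩
        simp [J, idx, n2, n3, xp k hk]
    calc v = μH[(Fintype.card ι : ℝ)] (Icc lo hi) := by rw [hv, hausdorffMeasure_pi_real]
      _ ≤ μH[(Fintype.card ι : ℝ)] ((fun (z : EuclideanSpace ℝ (ι ⊕ ι)) (k : ι) =>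
          z (idx e k)) '' (J '' off F)) := measure_mono hsub
      _ ≤ ((1 : ℝ≥0) : ℝ≥0∞) ^ (Fintype.card ι : ℝ) *
          μH[(Fintype.card ι : ℝ)] (J '' off F) :=
          (proj_lip (idx e)).hausdorffMeasure_image_le (by positivity) _
      _ = μH[(Fintype.card ι : ℝ)] (J '' off F) := by simp
  have hctop : D + v / 2 ≠ ⊤ := ENNReal.add_ne_top.2 ⟨hDtop, ENNReal.div_ne_top hvtop (by norm_num)⟩
  refine ⟨(D + v / 2).toNNReal, F, f, hFQ, hfQ, hdist, ?_, ?_⟩
  · rw [ENNReal.coe_toNNReal hctop]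
    exact (ENNReal.add_lt_add_left hDtop (ENNReal.half_lt_self hvpos.ne' hvtop)).trans_le hlow
  · intro n hn
    rw [ENNReal.coe_toNNReal hctop, Gr_eq, image_union]
    refine (measure_union_le _ _).trans (add_le_add ?_ ?_)
    · apply measure_mono
      apply image_mono
      rintro ⟨x, y⟩ ⟨h1, h2, h3⟩
      exact ⟨h1, h2, hfix n hn x h3⟩
    · refine (hK'.hausdorffMeasure_image_le (by positivity) _).trans ?_
      calc C * μH[(Fintype.card ι : ℝ)] (off (f n)) ≤ C * (v / 2 / C) := by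
            gcongr
            exact hcost n
        _ = v / 2 := ENNReal.mul_div_cancel hC0 hCtop

end Pool.Agent.H25.GM
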